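import Mathlib
import Pool.Agent.V1119.EX.Tree

set_option autoImplicit false
set_option linter.unusedSectionVars false
set_option linter.unusedDecidableInType false

/-! The star of groups: a centre `P`, leaves `A j`, edge groups `E j`, and its Bass-Serre tree. -/

namespace Pool.Agent.V1119.EX

open Monoid Monoid.PushoutI

universe u v w

section Fl

variable {ι : Type u} {G : ι → Type v} {H : Type w} [∀ i, Group (G i)] [Group H]
  {φ : ∀ i, H →* G i}
  [DecidableEq ι] [∀ i, DecidableEq (G i)] (d : NormalWord.Transversal φ)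

/-- index of the first letter -/
noncomputable def fl (g : PushoutI φ) : Option ι :=
  (g • (NormalWord.empty : NormalWord d)).fstIdx

theorem fl_base_mul (h : H) (g : PushoutI φ) : fl d (base φ h * g) = fl d g := by
  unfold fl
  rw [mul_smul, NormalWord.base_smul_def]

theorem fl_one : fl d (1 : PushoutI φ) = none := by
  unfold fl
  rw [one_smul]; rfl

theorem fl_base (h : H) : fl d (base φ h) = none := by
  have := fl_base_mul d h 1
  rwa [mul_one, fl_one] at this

theorem fl_of_mul {i : ι} (u : G i) (hu : u ∉ (φ i).range) (g : PushoutI φ)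
    (hg : fl d g ≠ some i) : fl d (of i u * g) = some i := by
  unfold fl at *
  rw [mul_smul, ← NormalWord.cons_eq_smul u _ hg hu]
  rfl

theorem fl_of_not_mem {m : ι} {v : G m} (hv : v ∉ (φ m).range) :
    fl d (of (φ := φ) m v) = some m := by
  have := fl_of_mul d v hv 1 (by rw [fl_one]; simp)
  rwa [mul_one] at this

theorem fl_of_mem {m : ι} {v : G m} (hv : v ∈ (φ m).range) : fl d (of (φ := φ) m v) = none := by
  obtain ⟨h, rfl⟩ := hv
  rw [of_apply_eq_base]; exact fl_base d h

end Fl

/-- The two factors. -/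
def XX (P : Type u) (A : Type u) : Bool → Type u
  | false => P
  | true => A

instance instXX (P : Type u) (A : Type u) [Group P] [Group A] : ∀ b, Group (XX P A b)
  | false => inferInstanceAs (Group P)
  | true => inferInstanceAs (Group A)

/-- The two edge maps. -/
def ff {P : Type u} {A : Type u} {E : Type} [Group P] [Group A] [Group E] (φ : E →* P)
    (ψ : E →* A) : ∀ b, E →* XX P A b
  | false => φ
  | true => ψ

/-- The amalgam of the centre and one leaf. -/
abbrev QQ {P : Type u} {A : Type u} {E : Type} [Group P] [Group A] [Group E] (φ : E →* P)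
    (ψ : E →* A) : Type u := PushoutI (ff φ ψ)

section QQ

variable {P : Type u} {A : Type u} {E : Type} [Group P] [Group A] [Group E] (φ : E →* P)
    (ψ : E →* A)

/-- The centre in the amalgam. -/
def qp : P →* QQ φ ψ := (of (φ := ff φ ψ) false : XX P A false →* _)

/-- The leaf in the amalgam. -/
def qa : A →* QQ φ ψ := (of (φ := ff φ ψ) true : XX P A true →* _)

theorem q_rel (e : E) : qp φ ψ (φ e) = qa φ ψ (ψ e) := by
  have h1 := of_apply_eq_base (ff φ ψ) false e
  have h2 := of_apply_eq_base (ff φ ψ) true e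
  exact h1.trans h2.symm

variable {φ ψ}

theorem ff_inj (hφ : Function.Injective φ) (hψ : Function.Injective ψ) :
    ∀ b, Function.Injective (ff φ ψ b)
  | false => hφ
  | true => hψ

theorem qp_inj (hφ : Function.Injective φ) (hψ : Function.Injective ψ) :
    Function.Injective (qp φ ψ) := of_injective (ff_inj hφ hψ) false

theorem qa_inj (hφ : Function.Injective φ) (hψ : Function.Injective ψ) :
    Function.Injective (qa φ ψ) := of_injective (ff_inj hφ hψ) true

/-- Homomorphisms out of the amalgam. -/
def qlift {K : Type*} [Group K] (f : P →* K) (g : A →* K) (h : ∀ e, f (φ e) = g (ψ e)) :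
    QQ φ ψ →* K :=
  PushoutI.lift (φ := ff φ ψ) (K := K)
    (fun b => match b with
      | false => (f : XX P A false →* K)
      | true => (g : XX P A true →* K))
    (f.comp φ) (fun b => match b with
      | false => rfl
      | true => by ext e; exact (h e).symm)

theorem qlift_p {K : Type*} [Group K] (f : P →* K) (g : A →* K) (h : ∀ e, f (φ e) = g (ψ e))
    (p : P) : qlift f g h (qp φ ψ p) = f p := by
  exact PushoutI.lift_of (φ := ff φ ψ) (K := K) _ _ _ (i := false) p

theorem qlift_a {K : Type*} [Group K] (f : P →* K) (g : A →* K) (h : ∀ e, f (φ e) = g (ψ e))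
    (a : A) : qlift f g h (qa φ ψ a) = g a := by
  exact PushoutI.lift_of (φ := ff φ ψ) (K := K) _ _ _ (i := true) a

variable [∀ b, DecidableEq (XX P A b)] (d : NormalWord.Transversal (ff φ ψ))

theorem qfl_p (p : P) : fl d (qp φ ψ p) ≠ some true := by
  by_cases h : p ∈ φ.range
  · have := fl_of_mem (φ := ff φ ψ) d (m := false) (v := p) h
    intro h2
    have h3 : fl d (qp φ ψ p) = none := this
    rw [h3] at h2; cases h2
  · have := fl_of_not_mem (φ := ff φ ψ) d (m := false) (v := p) h
    intro h2
    have h3 : fl d (qp φ ψ p) = some false := this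
    rw [h3] at h2; cases h2

theorem qfl_a {a : A} (h : a ∉ ψ.range) : fl d (qa φ ψ a) = some true :=
  fl_of_not_mem (φ := ff φ ψ) d (m := true) (v := a) h

theorem qfl_a_mul {a : A} (h : a ∉ ψ.range) {g : QQ φ ψ} (hg : fl d g ≠ some true) :
    fl d (qa φ ψ a * g) = some true :=
  fl_of_mul (φ := ff φ ψ) d (i := true) a h g hg

theorem qfl_p_mul {p : P} (h : p ∉ φ.range) {g : QQ φ ψ} (hg : fl d g ≠ some false) :
    fl d (qp φ ψ p * g) = some false :=
  fl_of_mul (φ := ff φ ψ) d (i := false) p h g hg

end QQ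

section Star

variable {J : Type u} {P : Type u} {A : J → Type u} {E : J → Type} [Group P]
  [∀ j, Group (A j)] [∀ j, Group (E j)] (φ : ∀ j, E j →* P) (ψ : ∀ j, E j →* A j)

/-- The fundamental group of the star of groups. -/
abbrev SG : Type u := PushoutI (G := fun j => QQ (φ j) (ψ j)) (fun j => qp (φ j) (ψ j))

/-- The centre. -/
def iP : P →* SG φ ψ := base _

/-- The leaves. -/
def iA (j : J) : A j →* SG φ ψ :=
  (of (φ := fun j => qp (φ j) (ψ j)) j : QQ (φ j) (ψ j) →* SG φ ψ).comp (qa (φ j) (ψ j))

theorem i_rel (j : J) (e : E j) : iP φ ψ (φ j e) = iA φ ψ j (ψ j e) := by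
  have h := of_apply_eq_base (fun j => qp (φ j) (ψ j)) j (φ j e)
  unfold iP iA
  rw [← h, q_rel, MonoidHom.comp_apply]

variable {φ ψ}

theorem iP_inj (hφ : ∀ j, Function.Injective (φ j)) (hψ : ∀ j, Function.Injective (ψ j)) :
    Function.Injective (iP φ ψ) :=
  base_injective (φ := fun j => qp (φ j) (ψ j)) (fun j => qp_inj (hφ j) (hψ j))

theorem iA_inj (hφ : ∀ j, Function.Injective (φ j)) (hψ : ∀ j, Function.Injective (ψ j)) (j : J) :
    Function.Injective (iA φ ψ j) := by
  intro a b hab
  have h1 := of_injective (φ := fun j => qp (φ j) (ψ j)) (fun j => qp_inj (hφ j) (hψ j)) j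
  exact qa_inj (hφ j) (hψ j) (h1 hab)

/-- Homomorphisms out of the star group. -/
def slift {K : Type*} [Group K] (f : P →* K) (g : ∀ j, A j →* K)
    (h : ∀ j e, f (φ j e) = g j (ψ j e)) : SG φ ψ →* K :=
  PushoutI.lift (φ := fun j => qp (φ j) (ψ j)) (K := K)
    (fun j => qlift f (g j) (h j)) f (fun j => by
      ext p; exact qlift_p f (g j) (h j) p)

theorem slift_p {K : Type*} [Group K] (f : P →* K) (g : ∀ j, A j →* K)
    (h : ∀ j e, f (φ j e) = g j (ψ j e)) (p : P) : slift f g h (iP φ ψ p) = f p :=
  PushoutI.lift_base (φ := fun j => qp (φ j) (ψ j)) (K := K) _ _ _ p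

theorem slift_a {K : Type*} [Group K] (f : P →* K) (g : ∀ j, A j →* K)
    (h : ∀ j e, f (φ j e) = g j (ψ j e)) (j : J) (a : A j) :
    slift f g h (iA φ ψ j a) = g j a := by
  unfold slift iA
  rw [MonoidHom.comp_apply]
  have := PushoutI.lift_of (φ := fun j => qp (φ j) (ψ j)) (K := K)
    (fun j => qlift f (g j) (h j)) f (fun j => by
      ext p; exact qlift_p f (g j) (h j) p) (i := j) (qa (φ j) (ψ j) a)
  rw [this]
  exact qlift_a f (g j) (h j) a

/-- Induction. -/
theorem s_ind {M : SG φ ψ → Prop} (hp : ∀ p g, M g → M (iP φ ψ p * g))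
    (ha : ∀ j a g, M g → M (iA φ ψ j a * g)) (h1 : M 1) : ∀ g, M g := by
  have key : ∀ x g, M g → M (x * g) := by
    intro x
    induction x using PushoutI.induction_on with
    | of i q =>
      have kq : ∀ q : QQ (φ i) (ψ i), ∀ g, M g →
          M (of (φ := fun j => qp (φ j) (ψ j)) i q * g) := by
        intro q
        induction q using PushoutI.induction_on with
        | of b y =>
          cases b with
          | false =>
            intro g hg
            have := hp y g hg
            have h := of_apply_eq_base (fun j => qp (φ j) (ψ j)) i y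
            unfold iP at this
            rw [← h] at this
            exact this
          | true =>
            intro g hg
            exact ha i y g hg
        | base e =>
          intro g hg
          have := hp (φ i e) g hg
          have h := of_apply_eq_base (fun j => qp (φ j) (ψ j)) i (φ i e)
          unfold iP at this
          rw [← h] at this
          have h2 : qp (φ i) (ψ i) (φ i e) = base (ff (φ i) (ψ i)) e :=
            of_apply_eq_base (ff (φ i) (ψ i)) false e
          rw [h2] at this
          exact this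
        | mul x y hx hy =>
          intro g hg
          rw [map_mul, mul_assoc]
          exact hx _ (hy _ hg)
      exact kq q
    | base p => intro g hg; exact hp p g hg
    | mul x y hx hy =>
      intro g hg
      rw [mul_assoc]
      exact hx _ (hy _ hg)
  intro g
  have := key g 1 h1
  rwa [mul_one] at this

end Star

section B

variable {J : Type u} {P : Type u} {A : J → Type u} {E : J → Type} [Group P]
  [∀ j, Group (A j)] [∀ j, Group (E j)] {φ : ∀ j, E j →* P} {ψ : ∀ j, E j →* A j}
  [DecidableEq J] [∀ j, DecidableEq (QQ (φ j) (ψ j))] [∀ j b, DecidableEq (XX P (A j) b)]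
  (d2 : NormalWord.Transversal (fun j => qp (φ j) (ψ j)))
  (d1 : ∀ j, NormalWord.Transversal (ff (φ j) (ψ j)))

/-- `g` begins with a letter of the leaf `j` (outside the edge group). -/
def BB (j : J) (g : SG φ ψ) : Prop :=
  ∃ (u : QQ (φ j) (ψ j)) (g' : SG φ ψ), g = of (φ := fun j => qp (φ j) (ψ j)) j u * g' ∧
    fl d2 g' ≠ some j ∧ fl (d1 j) u = some true

theorem not_mem_qp {j : J} {u : QQ (φ j) (ψ j)} (hu : fl (d1 j) u = some true) :
    u ∉ (qp (φ j) (ψ j)).range := by
  rintro ⟨p, rfl⟩
  exact qfl_p (d1 j) p hu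

theorem BB.fl_eq {j : J} {g : SG φ ψ} (h : BB d2 d1 j g) : fl d2 g = some j := by
  obtain ⟨u, g', rfl, h1, h2⟩ := h
  exact fl_of_mul d2 u (not_mem_qp d1 h2) g' h1

theorem BB.not_mem {j : J} {g : SG φ ψ} (h : BB d2 d1 j g) : g ∉ (iP φ ψ).range := by
  rintro ⟨p, rfl⟩
  have h1 := h.fl_eq
  have h2 : fl d2 (iP φ ψ p) = none := fl_base d2 p
  rw [h2] at h1; cases h1

theorem BB.start {j : J} {a : A j} (ha : a ∉ (ψ j).range) (p : P) :
    BB d2 d1 j (iA φ ψ j a * iP φ ψ p) := by
  refine ⟨qa (φ j) (ψ j) a, iP φ ψ p, rfl, ?_, qfl_a (d1 j) ha⟩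
  have h2 : fl d2 (iP φ ψ p) = none := fl_base d2 p
  rw [h2]; simp

theorem BB.next {i j : J} {a : A j} (ha : a ∉ (ψ j).range) {p : P} {g : SG φ ψ}
    (hg : BB d2 d1 i g) (hp : i = j → p ∉ (φ j).range) :
    BB d2 d1 j (iA φ ψ j a * (iP φ ψ p * g)) := by
  by_cases hij : i = j
  · subst hij
    obtain ⟨u, g', rfl, h1, h2⟩ := hg
    refine ⟨qa (φ i) (ψ i) a * (qp (φ i) (ψ i) p * u), g', ?_, h1, ?_⟩
    · rw [map_mul, map_mul, ← mul_assoc, ← mul_assoc, ← mul_assoc]
      congr 3
      exact (of_apply_eq_base (fun j => qp (φ j) (ψ j)) i p).symm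
    · apply qfl_a_mul (d1 i) ha
      rw [qfl_p_mul (d1 i) (hp rfl) (by rw [h2]; simp)]
      simp
  · refine ⟨qa (φ j) (ψ j) a, iP φ ψ p * g, rfl, ?_, qfl_a (d1 j) ha⟩
    have h2 : fl d2 (iP φ ψ p * g) = fl d2 g := fl_base_mul d2 p g
    rw [h2, hg.fl_eq]
    simpa using hij

end B

end Pool.Agent.V1119.EX
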