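import Mathlib
import Pool.Agent.V1119.EX.Star

set_option autoImplicit false
set_option linter.unusedSectionVars false
set_option linter.unusedDecidableInType false

/-! The Bass-Serre tree of a star of groups. -/

namespace Pool.Agent.V1119.EX

open Monoid Monoid.PushoutI SimpleGraph

universe u

section StarTree

variable {J : Type u} {P : Type u} {A : J → Type u} {E : J → Type} [Group P]
  [∀ j, Group (A j)] [∀ j, Group (E j)] (φ : ∀ j, E j →* P) (ψ : ∀ j, E j →* A j)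

/-- Vertices of the Bass-Serre tree. -/
abbrev VV : Type u := (SG φ ψ ⧸ (iP φ ψ).range) ⊕ (Σ j, SG φ ψ ⧸ (iA φ ψ j).range)

variable {φ ψ}

/-- centre vertices -/
def cv (g : SG φ ψ) : VV φ ψ := Sum.inl (g : SG φ ψ ⧸ (iP φ ψ).range)

/-- leaf vertices -/
def lv (j : J) (g : SG φ ψ) : VV φ ψ := Sum.inr ⟨j, (g : SG φ ψ ⧸ (iA φ ψ j).range)⟩

theorem smul_cv (g h : SG φ ψ) : g • cv h = cv (g * h) := rfl

theorem smul_lv (j : J) (g h : SG φ ψ) : g • lv j h = lv j (g * h) := rfl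

theorem cv_eq {g h : SG φ ψ} : cv g = cv h ↔ ∃ p, h = g * iP φ ψ p := by
  unfold cv
  rw [Sum.inl.injEq, QuotientGroup.eq]
  constructor
  · rintro ⟨x, hx⟩
    exact ⟨x, by rw [hx]; group⟩
  · rintro ⟨x, rfl⟩
    exact ⟨x, by group⟩

theorem lv_eq {j : J} {g h : SG φ ψ} : lv j g = lv j h ↔ ∃ a, h = g * iA φ ψ j a := by
  unfold lv
  rw [Sum.inr.injEq]
  constructor
  · intro h1
    have h2 := eq_of_heq (Sigma.mk.inj h1).2
    rw [QuotientGroup.eq] at h2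
    obtain ⟨x, hx⟩ := h2
    exact ⟨x, by rw [hx]; group⟩
  · rintro ⟨x, rfl⟩
    congr 1
    rw [QuotientGroup.eq]
    exact ⟨x, by group⟩

theorem lv_idx {i j : J} {g h : SG φ ψ} (e : lv i g = lv j h) : i = j := by
  unfold lv at e
  rw [Sum.inr.injEq] at e
  exact (Sigma.mk.inj e).1

theorem cv_ne_lv {j : J} {g h : SG φ ψ} : cv g ≠ lv j h := by
  intro e; cases e

theorem exists_v (v : VV φ ψ) : (∃ g, v = cv g) ∨ ∃ j g, v = lv j g := by
  rcases v with v | ⟨j, v⟩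
  · obtain ⟨g, rfl⟩ := QuotientGroup.mk_surjective v
    exact Or.inl ⟨g, rfl⟩
  · obtain ⟨g, rfl⟩ := QuotientGroup.mk_surjective v
    exact Or.inr ⟨j, g, rfl⟩

variable (φ ψ) in
/-- The Bass-Serre tree. -/
def TT : SimpleGraph (VV φ ψ) where
  Adj x y := ∃ j g, (x = cv g ∧ y = lv j g) ∨ (y = cv g ∧ x = lv j g)
  symm := ⟨fun x y h => by
    obtain ⟨j, g, h⟩ := h; exact ⟨j, g, h.symm⟩⟩
  loopless := ⟨fun x h => by
    obtain ⟨j, g, ⟨h1, h2⟩ | ⟨h1, h2⟩⟩ := h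
    · exact cv_ne_lv (h1.symm.trans h2)
    · exact cv_ne_lv (h1.symm.trans h2)⟩

theorem adj_iff {x y : VV φ ψ} : (TT φ ψ).Adj x y ↔
    ∃ j g, (x = cv g ∧ y = lv j g) ∨ (y = cv g ∧ x = lv j g) := Iff.rfl

theorem adj_cl (j : J) (g : SG φ ψ) : (TT φ ψ).Adj (cv g) (lv j g) := ⟨j, g, Or.inl ⟨rfl, rfl⟩⟩

theorem adj_c {g : SG φ ψ} {v : VV φ ψ} (h : (TT φ ψ).Adj (cv g) v) :
    ∃ j p, v = lv j (g * iP φ ψ p) := by
  obtain ⟨j, k, ⟨h1, rfl⟩ | ⟨rfl, h1⟩⟩ := h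
  · obtain ⟨p, rfl⟩ := cv_eq.1 h1
    exact ⟨j, p, rfl⟩
  · exact absurd h1 cv_ne_lv

theorem adj_l {j : J} {g : SG φ ψ} {v : VV φ ψ} (h : (TT φ ψ).Adj (lv j g) v) :
    ∃ a, v = cv (g * iA φ ψ j a) := by
  obtain ⟨i, k, ⟨h1, rfl⟩ | ⟨rfl, h1⟩⟩ := h
  · exact absurd h1.symm cv_ne_lv
  · obtain rfl := lv_idx h1
    obtain ⟨a, rfl⟩ := lv_eq.1 h1
    exact ⟨a, rfl⟩

theorem adj_smul (g : SG φ ψ) {x y : VV φ ψ} (h : (TT φ ψ).Adj x y) :
    (TT φ ψ).Adj (g • x) (g • y) := by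
  obtain ⟨j, k, ⟨rfl, rfl⟩ | ⟨rfl, rfl⟩⟩ := h
  · rw [smul_cv, smul_lv]; exact adj_cl j _
  · rw [smul_cv, smul_lv]; exact (adj_cl j _).symm

theorem vsmul_inj (g : SG φ ψ) {x y : VV φ ψ} (h : g • x = g • y) : x = y := by
  have h1 : g⁻¹ • g • x = g⁻¹ • g • y := congrArg (fun v => g⁻¹ • v) h
  rw [← mul_smul, ← mul_smul, inv_mul_cancel, one_smul, one_smul] at h1
  exact h1

section NB

variable
  [DecidableEq J] [∀ j, DecidableEq (QQ (φ j) (ψ j))] [∀ j b, DecidableEq (XX P (A j) b)]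
  (d2 : NormalWord.Transversal (fun j => qp (φ j) (ψ j)))
  (d1 : ∀ j, NormalWord.Transversal (ff (φ j) (ψ j)))

theorem nbt (w : ℕ → VV φ ψ) (hadj : ∀ i, (TT φ ψ).Adj (w i) (w (i + 1)))
    (hnb : ∀ i, w i ≠ w (i + 2)) (h0 : w 0 = cv 1) (m : ℕ) :
    ∃ j g, w (2 * m + 1) = lv j g ∧ w (2 * m + 2) = cv g ∧ BB d2 d1 j g⁻¹ := by
  induction m with
  | zero =>
    have h1 := hadj 0
    rw [h0] at h1
    obtain ⟨j, p, h2⟩ := adj_c h1
    have h3 := hadj 1
    have h2' : w 1 = lv j (1 * iP φ ψ p) := h2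
    rw [h2'] at h3
    obtain ⟨a, h4⟩ := adj_l h3
    refine ⟨j, 1 * iP φ ψ p * iA φ ψ j a, ?_, h4, ?_⟩
    · change w 1 = _
      rw [h2']
      exact lv_eq.2 ⟨a, rfl⟩
    · have ha : a ∉ (ψ j).range := by
        rintro ⟨e, rfl⟩
        apply hnb 0
        rw [h0]
        change _ = w (1 + 1)
        rw [h4]
        rw [← i_rel, one_mul, ← map_mul]
        exact cv_eq.2 ⟨p * φ j e, by rw [one_mul]⟩
      have := BB.start d2 d1 (j := j) (a := a⁻¹) (by rwa [inv_mem_iff]) p⁻¹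
      rw [map_inv, map_inv] at this
      rw [one_mul, mul_inv_rev]
      exact this
  | succ m ih =>
    obtain ⟨i, g, hl, hc, hB⟩ := ih
    have h1 := hadj (2 * m + 2)
    rw [hc] at h1
    obtain ⟨j, p, h2⟩ := adj_c h1
    have h3 := hadj (2 * m + 3)
    have h2' : w (2 * m + 3) = lv j (g * iP φ ψ p) := h2
    rw [h2'] at h3
    obtain ⟨a, h4⟩ := adj_l h3
    have h4' : w (2 * m + 4) = cv (g * iP φ ψ p * iA φ ψ j a) := h4
    refine ⟨j, g * iP φ ψ p * iA φ ψ j a, ?_, h4', ?_⟩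
    · change w (2 * m + 3) = _
      rw [h2']
      exact lv_eq.2 ⟨a, rfl⟩
    · have ha : a ∉ (ψ j).range := by
        rintro ⟨e, rfl⟩
        apply hnb (2 * m + 2)
        change _ = w (2 * m + 4)
        rw [h4', hc, ← i_rel, mul_assoc, ← map_mul]
        exact cv_eq.2 ⟨_, rfl⟩
      have hp : i = j → p⁻¹ ∉ (φ j).range := by
        rintro rfl hp
        rw [inv_mem_iff] at hp
        obtain ⟨e, rfl⟩ := hp
        apply hnb (2 * m + 1)
        change _ = w (2 * m + 3)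
        rw [h2', hl, i_rel]
        exact lv_eq.2 ⟨_, rfl⟩
      have := BB.next d2 d1 (j := j) (a := a⁻¹) (by rwa [inv_mem_iff]) (p := p⁻¹) hB hp
      rw [map_inv, map_inv] at this
      rw [mul_inv_rev, mul_inv_rev]
      exact this

end NB

variable (hφ : ∀ j, Function.Injective (φ j)) (hψ : ∀ j, Function.Injective (ψ j))

include hφ hψ

theorem nbt' (w : ℕ → VV φ ψ) (hadj : ∀ i, (TT φ ψ).Adj (w i) (w (i + 1)))
    (hnb : ∀ i, w i ≠ w (i + 2)) {g : SG φ ψ} (h0 : w 0 = cv g) {n : ℕ} (hn : 0 < n) :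
    w n ≠ w 0 := by
  classical
  obtain ⟨d2⟩ := NormalWord.transversal_nonempty (fun j => qp (φ j) (ψ j))
    (fun j => qp_inj (hφ j) (hψ j))
  have hd1 : ∀ j, Nonempty (NormalWord.Transversal (ff (φ j) (ψ j))) := fun j =>
    NormalWord.transversal_nonempty (ff (φ j) (ψ j)) (ff_inj (hφ j) (hψ j))
  let d1 := fun j => (hd1 j).some
  have key := nbt d2 d1 (fun i => g⁻¹ • w i) (fun i => adj_smul g⁻¹ (hadj i))
    (fun i h => hnb i (vsmul_inj _ h)) (by
      change g⁻¹ • w 0 = _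
      rw [h0, smul_cv, inv_mul_cancel])
  intro hw
  rcases Nat.even_or_odd' n with ⟨m, rfl | rfl⟩
  · obtain ⟨m, rfl⟩ : ∃ k, m = k + 1 := ⟨m - 1, by omega⟩
    obtain ⟨j, k, _, h2, h3⟩ := key m
    change g⁻¹ • w (2 * (m + 1)) = _ at h2
    rw [hw, h0, smul_cv, inv_mul_cancel] at h2
    obtain ⟨p, hp⟩ := cv_eq.1 h2
    apply h3.not_mem
    rw [hp, one_mul]
    exact ⟨p⁻¹, by rw [map_inv]⟩
  · obtain ⟨j, k, h1, _, _⟩ := key m
    change g⁻¹ • w (2 * m + 1) = _ at h1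
    rw [hw, h0, smul_cv] at h1
    exact cv_ne_lv h1

omit hφ hψ in
theorem connected : (TT φ ψ).Connected := by
  have h1 : ∀ g : SG φ ψ, (TT φ ψ).Reachable (cv 1) (cv g) := by
    have hmap : ∀ (g : SG φ ψ) (x y : VV φ ψ), (TT φ ψ).Reachable x y →
        (TT φ ψ).Reachable (g • x) (g • y) := by
      intro g x y h
      let f : TT φ ψ →g TT φ ψ := ⟨fun v => g • v, fun {a b} hab => adj_smul g hab⟩
      exact h.map f
    refine s_ind ?_ ?_ ?_
    · intro p g hg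
      have := hmap (iP φ ψ p) _ _ hg
      rw [smul_cv, smul_cv, mul_one] at this
      rwa [show cv (iP φ ψ p) = cv (1 : SG φ ψ) from (cv_eq.2 ⟨p, by rw [one_mul]⟩).symm] at this
    · intro j a g hg
      have := hmap (iA φ ψ j a) _ _ hg
      rw [smul_cv, smul_cv, mul_one] at this
      refine Reachable.trans ?_ this
      refine (adj_cl j 1).reachable.trans ?_
      rw [show lv j (1 : SG φ ψ) = lv j (iA φ ψ j a) from lv_eq.2 ⟨a, by rw [one_mul]⟩]
      exact (adj_cl j _).symm.reachable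
    · rfl
  have h2 : ∀ v : VV φ ψ, (TT φ ψ).Reachable (cv 1) v := by
    intro v
    rcases exists_v v with ⟨g, rfl⟩ | ⟨j, g, rfl⟩
    · exact h1 g
    · exact (h1 g).trans (adj_cl j g).reachable
  exact (SimpleGraph.connected_iff _).mpr ⟨fun x y => (h2 x).symm.trans (h2 y), ⟨cv 1⟩⟩

theorem isTree : (TT φ ψ).IsTree := by
  refine ⟨connected, ?_⟩
  intro v c hc
  have h3 := hc.three_le_length
  set n := c.length with hn
  let w : ℕ → VV φ ψ := fun i => c.getVert (i % n)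
  have hmodn : ∀ i, i % n < n := fun i => Nat.mod_lt _ (by omega)
  have hadj : ∀ i, (TT φ ψ).Adj (w i) (w (i + 1)) := by
    intro i
    have h1 := c.adj_getVert_succ (i := i % n) (by rw [← hn]; exact hmodn i)
    change (TT φ ψ).Adj (c.getVert (i % n)) (c.getVert ((i + 1) % n))
    by_cases h : i % n + 1 = n
    · have h2 : (i + 1) % n = 0 := by
        rw [Nat.add_mod, Nat.mod_eq_of_lt (show 1 < n by omega), h, Nat.mod_self]
      rw [h2, Walk.getVert_zero]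
      rw [h, hn, Walk.getVert_length] at h1
      exact h1
    · have h2 : (i + 1) % n = i % n + 1 := by
        rw [Nat.add_mod, Nat.mod_eq_of_lt (show 1 < n by omega), Nat.mod_eq_of_lt]
        have := hmodn i
        omega
      rw [h2]; exact h1
  have hinj : ∀ a b, a < n → b < n → c.getVert a = c.getVert b → a = b := by
    have h1 := hc.getVert_injOn'
    intro a b ha hb hab
    exact h1 (by simp; omega) (by simp; omega) hab
  have hnb : ∀ i, w i ≠ w (i + 2) := by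
    intro i h
    have h1 := hinj _ _ (hmodn i) (hmodn (i + 2)) h
    have h2 := hmodn i
    have h4 : (i + 2) % n = (i % n + 2) % n := by
      rw [Nat.add_mod, Nat.mod_eq_of_lt (show 2 < n by omega)]
    rw [h4] at h1
    by_cases h5 : i % n + 2 < n
    · rw [Nat.mod_eq_of_lt h5] at h1; omega
    · have h6 : (i % n + 2) % n = i % n + 2 - n := by
        rw [Nat.mod_eq_sub_mod (by omega), Nat.mod_eq_of_lt (by omega)]
      omega
  have hper : ∀ i, w (i + n) = w i := by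
    intro i
    change c.getVert ((i + n) % n) = c.getVert (i % n)
    rw [Nat.add_mod_right]
  rcases exists_v (w 0) with ⟨g, hg⟩ | ⟨j, g, hg⟩
  · exact nbt' hφ hψ w hadj hnb hg (show 0 < n by omega) (by have := hper 0; rwa [zero_add] at this)
  · have h1 := hadj 0
    rw [hg] at h1
    obtain ⟨a, ha⟩ := adj_l h1
    refine nbt' hφ hψ (fun i => w (i + 1)) (fun i => hadj (i + 1)) (fun i => hnb (i + 1))
      (g := g * iA φ ψ j a) ha (show 0 < n by omega) ?_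
    rw [show n + 1 = 0 + 1 + n from by ring, hper]

theorem treeAct : TreeAct (SG φ ψ) (TT φ ψ) where
  isTree := isTree hφ hψ
  adj g v w h := adj_smul g h
  noInv g v w h := by
    rintro ⟨h1, h2⟩
    obtain ⟨j, k, ⟨rfl, rfl⟩ | ⟨rfl, rfl⟩⟩ := h
    · rw [smul_cv] at h1; exact cv_ne_lv h1
    · rw [smul_cv] at h2; exact cv_ne_lv h2

omit hφ hψ in
theorem fix_c {g h : SG φ ψ} : g • cv h = cv h ↔ ∃ p, g = h * iP φ ψ p * h⁻¹ := by
  rw [smul_cv, eq_comm, cv_eq]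
  constructor
  · rintro ⟨p, hp⟩; exact ⟨p, by rw [← hp]; group⟩
  · rintro ⟨p, rfl⟩; exact ⟨p, by group⟩

omit hφ hψ in
theorem fix_l {j : J} {g h : SG φ ψ} : g • lv j h = lv j h ↔ ∃ a, g = h * iA φ ψ j a * h⁻¹ := by
  rw [smul_lv, eq_comm, lv_eq]
  constructor
  · rintro ⟨p, hp⟩; exact ⟨p, by rw [← hp]; group⟩
  · rintro ⟨p, rfl⟩; exact ⟨p, by group⟩

theorem iP_eq_iA {j : J} {p : P} {a : A j} (h : iP φ ψ p = iA φ ψ j a) :
    ∃ e, p = φ j e ∧ a = ψ j e := by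
  classical
  obtain ⟨d2⟩ := NormalWord.transversal_nonempty (fun j => qp (φ j) (ψ j))
    (fun j => qp_inj (hφ j) (hψ j))
  have hd1 : ∀ j, Nonempty (NormalWord.Transversal (ff (φ j) (ψ j))) := fun j =>
    NormalWord.transversal_nonempty (ff (φ j) (ψ j)) (ff_inj (hφ j) (hψ j))
  let d1 := fun j => (hd1 j).some
  have ha : a ∈ (ψ j).range := by
    by_contra hc
    have := BB.start d2 d1 (j := j) hc 1
    rw [map_one, mul_one, ← h] at this
    exact this.not_mem _ _ ⟨p, rfl⟩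
  obtain ⟨e, rfl⟩ := ha
  rw [← i_rel] at h
  exact ⟨e, iP_inj hφ hψ h, rfl⟩

theorem fix_edge {j : J} {g h : SG φ ψ} (h1 : g • cv h = cv h) (h2 : g • lv j h = lv j h) :
    ∃ e, g = h * iP φ ψ (φ j e) * h⁻¹ := by
  obtain ⟨p, hp⟩ := fix_c.1 h1
  obtain ⟨a, ha⟩ := fix_l.1 h2
  have : iP φ ψ p = iA φ ψ j a := by
    rw [hp] at ha
    simpa using ha
  obtain ⟨e, rfl, _⟩ := iP_eq_iA hφ hψ this
  exact ⟨e, hp⟩

/-- An element of the centre fixing a vertex other than the base vertex. -/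
theorem iP_fix {p : P} {v : VV φ ψ} (hv : v ≠ cv 1) (h : iP φ ψ p • v = v) :
    ∃ j e p', p = p' * φ j e * p'⁻¹ := by
  have h0 : iP φ ψ p • cv (1 : SG φ ψ) = cv 1 := fix_c.2 ⟨p, by group⟩
  obtain ⟨w, hw1, _, hw3⟩ := exists_next (treeAct hφ hψ) hv.symm
  have h3 := hw3 _ h0 h
  obtain ⟨j, p', rfl⟩ := adj_c hw1
  have h4 : iP φ ψ p • cv (1 * iP φ ψ p') = cv (1 * iP φ ψ p') := by
    rw [show cv (1 * iP φ ψ p') = cv (1 : SG φ ψ) from (cv_eq.2 ⟨p', rfl⟩).symm]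
    exact h0
  obtain ⟨e, he⟩ := fix_edge hφ hψ h4 h3
  refine ⟨j, e, p', iP_inj hφ hψ ?_⟩
  rw [he, map_mul, map_mul, map_inv, one_mul]

end StarTree

end Pool.Agent.V1119.EX
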