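import Mathlib
import Pool.Agent.V1119.EX.StarTree

set_option autoImplicit false
set_option linter.unusedSectionVars false
set_option linter.unusedDecidableInType false

/-! The affine groups of fields. -/

namespace Pool.Agent.V1119.EX

universe u v

/-- The group of maps `t ↦ l t + m` over a field. -/
@[ext]
structure Aff (K : Type u) [Field K] where
  l : Kˣ
  m : K

namespace Aff

variable {K : Type u} [Field K]

instance : Mul (Aff K) := ⟨fun x y => ⟨x.l * y.l, x.l * y.m + x.m⟩⟩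
instance : One (Aff K) := ⟨⟨1, 0⟩⟩
instance : Inv (Aff K) := ⟨fun x => ⟨x.l⁻¹, -((x.l⁻¹ : Kˣ) : K) * x.m⟩⟩

@[simp] theorem mul_l (x y : Aff K) : (x * y).l = x.l * y.l := rfl
@[simp] theorem mul_m (x y : Aff K) : (x * y).m = x.l * y.m + x.m := rfl
@[simp] theorem one_l : (1 : Aff K).l = 1 := rfl
@[simp] theorem one_m : (1 : Aff K).m = 0 := rfl
@[simp] theorem inv_l (x : Aff K) : (x⁻¹).l = x.l⁻¹ := rfl
@[simp] theorem inv_m (x : Aff K) : (x⁻¹).m = -((x.l⁻¹ : Kˣ) : K) * x.m := rfl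

instance : Group (Aff K) :=
  Group.ofLeftAxioms
    (by
      intro a b c
      ext
      · simp [mul_assoc]
      · simp; ring)
    (by intro a; ext <;> simp)
    (by intro a; ext <;> simp)

/-- The linear part. -/
def lin : Aff K →* Kˣ where
  toFun := Aff.l
  map_one' := rfl
  map_mul' _ _ := rfl

/-- translations -/
def tau (k : K) : Aff K := ⟨1, k⟩

/-- dilations -/
def dil (k : Kˣ) : Aff K := ⟨k, 0⟩

theorem tau_add (a b : K) : tau (a + b) = tau a * tau b := by
  ext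
  · simp [tau]
  · simp [tau, add_comm]

theorem tau_zero : tau (0 : K) = 1 := rfl

theorem tau_inj {a b : K} (h : tau a = tau b) : a = b := congrArg Aff.m h

theorem tau_neg (a : K) : tau (-a) = (tau a)⁻¹ := by
  ext <;> simp [tau]

theorem tau_pow (a : K) (n : ℕ) : tau a ^ n = tau (n * a) := by
  induction n with
  | zero => simp [tau_zero]
  | succ n ih => rw [pow_succ, ih, ← tau_add]; congr 1; push_cast; ring

theorem tau_zpow (a : K) (n : ℤ) : tau a ^ n = tau (n * a) := by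
  cases n with
  | ofNat n => rw [Int.ofNat_eq_natCast, zpow_natCast, tau_pow]; simp
  | negSucc n =>
    rw [zpow_negSucc, tau_pow, ← tau_neg]; congr 1; push_cast; ring

theorem tau_comm (a b : K) : tau a * tau b = tau b * tau a := by
  rw [← tau_add, ← tau_add, add_comm]

theorem conj_tau (y : Aff K) (k : K) : y * tau k * y⁻¹ = tau (y.l * k) := by
  ext
  · simp [tau]
  · simp [tau]

theorem eq_tau {y : Aff K} (h : y.l = 1) : y = tau y.m := by
  ext
  · simp [tau, h]
  · simp [tau]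

theorem ker_tau {H : Type v} [Group H] (θ : Aff K →* H) (h : θ (tau 1) ≠ 1) {k : K}
    (hk : θ (tau k) = 1) : k = 0 := by
  by_contra hc
  apply h
  have := conj_tau (dil (Units.mk0 k hc)⁻¹) k
  have e : ((dil (Units.mk0 k hc)⁻¹ : Aff K).l : K) * k = 1 := by
    simp [dil, hc]
  rw [e] at this
  rw [← this, map_mul, map_mul, hk, mul_one, ← map_mul, mul_inv_cancel, map_one]

theorem hom_inj {H : Type v} [Group H] (θ : Aff K →* H) (h : θ (tau 1) ≠ 1) :
    Function.Injective (fun k => θ (tau k)) := by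
  intro a b hab
  have hab' : θ (tau a) = θ (tau b) := hab
  have : θ (tau (a + -b)) = 1 := by
    rw [tau_add, tau_neg, map_mul, map_inv, hab', mul_inv_cancel]
  have := ker_tau θ h this
  rwa [← sub_eq_add_neg, sub_eq_zero] at this

theorem tau_one_comm [CharZero K] :
    ∃ y : Aff K, tau (1 : K) = y * tau 1 * y⁻¹ * (tau 1)⁻¹ := by
  refine ⟨dil (Units.mk0 2 two_ne_zero), ?_⟩
  rw [conj_tau, ← tau_neg, ← tau_add]
  congr 1
  simp [dil]
  norm_num

theorem map_tau_one [CharZero K] {K' : Type v} [Field K'] (θ : Aff K →* Aff K') :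
    θ (tau 1) = tau (θ (tau 1)).m := by
  apply eq_tau
  obtain ⟨y, hy⟩ := tau_one_comm (K := K)
  have h1 := congrArg (fun z => lin (θ z)) hy
  simp only [map_mul, map_inv] at h1
  change lin (θ (tau 1)) = 1
  rw [h1]
  rw [mul_comm (lin (θ y)), mul_assoc, mul_assoc, mul_inv_cancel_left, mul_inv_cancel]

theorem map_conj [CharZero K] {K' : Type v} [Field K'] (θ : Aff K →* Aff K')
    (h : θ (tau 1) ≠ 1) : ∃ y, θ (tau 1) = y * tau 1 * y⁻¹ := by
  have h1 := map_tau_one θ
  have h2 : (θ (tau 1)).m ≠ 0 := by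
    intro h3
    rw [h3, tau_zero] at h1
    exact h h1
  refine ⟨dil (Units.mk0 _ h2), ?_⟩
  rw [conj_tau, mul_one]
  exact h1

theorem sqrt_obstruction [CharZero K] {K' : Type v} [Field K'] (i : K) (hi : i * i = -1)
    (hK' : ∀ a : K', a * a ≠ -1) (θ : Aff K →* Aff K') : θ (tau 1) = 1 := by
  by_contra h
  have h1 := map_tau_one θ
  set μ := (θ (tau 1)).m with hμ
  have h2 : μ ≠ 0 := by
    intro h3
    rw [h3, tau_zero] at h1
    exact h h1
  have hi0 : i ≠ 0 := by
    rintro rfl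
    simp at hi
  set d : Aff K := dil (Units.mk0 i hi0) with hd
  have h3 : d * (d * tau 1 * d⁻¹) * d⁻¹ = tau (-1) := by
    rw [conj_tau, conj_tau, hd]
    simp only [dil, Units.val_mk0, mul_one, hi]
  have h4 := congrArg θ h3
  rw [map_mul, map_mul, map_mul, map_mul, map_inv, h1, conj_tau, conj_tau, tau_neg, map_inv,
    h1, ← tau_neg] at h4
  have h5 := tau_inj h4
  apply hK' ((θ d).l : K')
  have h6 : ((θ d).l : K') * ((θ d).l : K') * μ = -1 * μ := by rw [mul_assoc, h5]; ring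
  exact mul_right_cancel₀ h2 h6

end Aff

section Fix

open Aff

variable {H V : Type*} [Group H] [MulAction H V] {T : SimpleGraph V}

/-- An action of an affine group on a tree, with small edge stabilisers, has a fixed vertex. -/
theorem aff_fix_gen (hT : TreeAct H T) {K : Type u} [Field K] [CharZero K] (X : K)
    (hX : ∀ m n : ℤ, (m : K) = n * X → m = 0 ∧ n = 0)
    (θ : Aff K →* H) (h1 : θ (tau 1) ≠ 1)
    (hCE : ∀ (v w : V) (a b : H), T.Adj v w → a • v = v → a • w = w → b • v = v → b • w = w →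
      ∃ m n : ℤ, ¬ (m = 0 ∧ n = 0) ∧ a ^ m = b ^ n) :
    ∃ v : V, ∀ x, θ x • v = v := by
  have hdiv : ∀ k : K, ∃ v : V, θ (tau k) • v = v := by
    intro k
    apply hT.elliptic_of_divisible
    intro n hn
    refine ⟨θ (tau (k / n)), ?_⟩
    rw [← map_pow, tau_pow]
    congr 2
    have : (n : K) ≠ 0 := by exact_mod_cast (by omega : n ≠ 0)
    field_simp
  have hcomm : ∀ a b : K, θ (tau a) * θ (tau b) = θ (tau b) * θ (tau a) := by
    intro a b; rw [← map_mul, ← map_mul, tau_comm]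
  obtain ⟨v, hs, ht, huniq⟩ := hT.unique_fixed (hcomm 1 X) (hdiv 1) (hdiv X) (by
    intro v w hvw a1 a2 b1 b2
    obtain ⟨m, n, hmn, he⟩ := hCE v w _ _ hvw a1 a2 b1 b2
    rw [← map_zpow, ← map_zpow, tau_zpow, tau_zpow, mul_one] at he
    exact hmn (hX m n (Aff.hom_inj θ h1 he)))
  have htr : ∀ k : K, θ (tau k) • v = v := by
    intro k
    apply huniq
    · rw [← mul_smul, hcomm, mul_smul, hs]
    · rw [← mul_smul, hcomm, mul_smul, ht]
  refine ⟨v, fun x => ?_⟩
  have hx : ∀ k : K, θ (tau k) • θ x • v = θ x • v := by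
    intro k
    have h2 : tau k * x = x * tau ((x⁻¹).l * k) := by
      rw [← conj_tau]; group
    rw [← mul_smul, ← map_mul, h2, map_mul, mul_smul, htr]
  exact huniq _ (hx 1) (hx X)

end Fix

section FixStar

open Aff

variable {J : Type u} {P : Type u} {A : J → Type u} {E : J → Type} [Group P]
  [∀ j, Group (A j)] [∀ j, Group (E j)] {φ : ∀ j, E j →* P} {ψ : ∀ j, E j →* A j}
  (hφ : ∀ j, Function.Injective (φ j)) (hψ : ∀ j, Function.Injective (ψ j))

include hφ hψ in
theorem aff_fix (hCE : ∀ j (a b : E j), ∃ m n : ℤ, ¬ (m = 0 ∧ n = 0) ∧ a ^ m = b ^ n)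
    {K : Type u} [Field K] [CharZero K] (X : K)
    (hX : ∀ m n : ℤ, (m : K) = n * X → m = 0 ∧ n = 0)
    (θ : Aff K →* SG φ ψ) (h1 : θ (tau 1) ≠ 1) : ∃ v : VV φ ψ, ∀ x, θ x • v = v := by
  refine aff_fix_gen (treeAct hφ hψ) X hX θ h1 ?_
  have key : ∀ (j : J) (g : SG φ ψ) (a b : SG φ ψ), a • cv g = cv g → a • lv j g = lv j g →
      b • cv g = cv g → b • lv j g = lv j g →
      ∃ m n : ℤ, ¬ (m = 0 ∧ n = 0) ∧ a ^ m = b ^ n := by
    intro j g a b ha1 ha2 hb1 hb2
    obtain ⟨e, rfl⟩ := fix_edge hφ hψ ha1 ha2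
    obtain ⟨e', rfl⟩ := fix_edge hφ hψ hb1 hb2
    obtain ⟨m, n, hmn, he⟩ := hCE j e e'
    refine ⟨m, n, hmn, ?_⟩
    rw [conj_zpow, conj_zpow, ← map_zpow, ← map_zpow, ← map_zpow, ← map_zpow, he]
  rintro v w a b ⟨j, g, ⟨rfl, rfl⟩ | ⟨rfl, rfl⟩⟩ ha1 ha2 hb1 hb2
  · exact key j g a b ha1 ha2 hb1 hb2
  · exact key j g a b ha2 ha1 hb2 hb1

end FixStar

end Pool.Agent.V1119.EX
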