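import Mathlib

set_option autoImplicit false

/-! Fields of rational functions. -/

namespace Pool.Agent.V1119.EX

universe u

/-- Rational functions with coefficients in `k` in the variables `S`. -/
abbrev Rat' (S : Type u) (k : Type) [Field k] : Type u := FractionRing (MvPolynomial S k)

section

variable {S : Type u} {k : Type} [Field k]

/-- The variables. -/
noncomputable def va (s : S) : Rat' S k := algebraMap (MvPolynomial S k) _ (MvPolynomial.X s)

theorem va_inj : Function.Injective (va : S → Rat' S k) := by
  intro a b hab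
  have := IsFractionRing.injective (MvPolynomial S k) (Rat' S k) hab
  exact MvPolynomial.X_injective this

theorem rat_charZero [CharZero k] : CharZero (Rat' S k) := by
  have : CharZero (MvPolynomial S k) := inferInstance
  exact IsFractionRing.charZero_of_isFractionRing (MvPolynomial S k)

theorem va_indep [CharZero k] (s : S) (m n : ℤ) (h : (m : Rat' S k) = (n : Rat' S k) * va s) :
    m = 0 ∧ n = 0 := by
  have h1 : ((m : MvPolynomial S k)) = (n : MvPolynomial S k) * MvPolynomial.X s := by
    apply IsFractionRing.injective (MvPolynomial S k) (Rat' S k)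
    rw [map_mul, map_intCast, map_intCast]
    exact h
  have h2 := congrArg (MvPolynomial.eval (fun _ => (0 : k))) h1
  rw [map_mul, map_intCast, MvPolynomial.eval_X, mul_zero] at h2
  have hm : m = 0 := by exact_mod_cast h2
  refine ⟨hm, ?_⟩
  have h3 := congrArg (MvPolynomial.eval (fun _ => (1 : k))) h1
  rw [map_mul, map_intCast, map_intCast, MvPolynomial.eval_X, mul_one, hm] at h3
  exact_mod_cast h3.symm

theorem no_sqrt (a : Rat' S ℝ) : a * a ≠ -1 := by
  intro h
  obtain ⟨p, q, hq, rfl⟩ := IsFractionRing.div_surjective (A := MvPolynomial S ℝ) a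
  have hq0 : q ≠ 0 := nonZeroDivisors.ne_zero hq
  have hq1 : algebraMap (MvPolynomial S ℝ) (Rat' S ℝ) q ≠ 0 := by
    intro h0
    apply hq0
    apply IsFractionRing.injective (MvPolynomial S ℝ) (Rat' S ℝ)
    rw [h0, map_zero]
  have h1 : p * p = -(q * q) := by
    apply IsFractionRing.injective (MvPolynomial S ℝ) (Rat' S ℝ)
    rw [map_mul, map_neg, map_mul]
    field_simp at h
    rw [← sq, ← sq]
    linear_combination h
  have h2 : ∃ r : S → ℝ, MvPolynomial.eval r q ≠ 0 := by
    by_contra hc
    push Not at hc
    apply hq0
    apply MvPolynomial.funext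
    intro r
    rw [hc r, map_zero]
  obtain ⟨r, hr⟩ := h2
  have h3 := congrArg (MvPolynomial.eval r) h1
  rw [map_mul, map_neg, map_mul] at h3
  have h4 : 0 < MvPolynomial.eval r q * MvPolynomial.eval r q := mul_self_pos.2 hr
  have h5 := mul_self_nonneg (MvPolynomial.eval r p)
  linarith

theorem exists_i : ∃ i : Rat' S ℂ, i * i = -1 := by
  refine ⟨algebraMap (MvPolynomial S ℂ) _ (MvPolynomial.C Complex.I), ?_⟩
  rw [← map_mul, ← map_mul, Complex.I_mul_I]
  simp

end

/-- Cantor. -/
theorem no_inj_rat (X : Type u) (k : Type) [Field k] (f : Rat' (Set X) k → X) :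
    ¬ Function.Injective f := by
  intro h
  exact Function.cantor_injective (fun s => f (va s)) (h.comp va_inj)

end Pool.Agent.V1119.EX
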