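import Mathlib

set_option autoImplicit false

/-! Selection of a system of elements. -/

namespace Pool.Agent.V1119.EX

universe u

open Cardinal

theorem sel {I X : Type u} (f : I → X → X) (hinj : ∀ i, Function.Injective (f i))
    (hI : #I ≤ #X) (hX : ℵ₀ ≤ #X) (hM : ∀ i, #X ≤ #{x // f i x ≠ x}) :
    ∃ x : I → X, ∀ i j, f i (x i) ≠ x j := by
  classical
  obtain ⟨r, wo, hr⟩ := Cardinal.ord_eq I
  have hlt : ∀ i, #{j // r j i} < #I := by
    intro i
    have := Ordinal.typein_lt_type r i
    rw [← hr, Cardinal.lt_ord] at this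
    exact this
  have hex : ∀ (i : I) (ih : ∀ j, r j i → X), ∃ x, f i x ≠ x ∧ (∀ j hj, x ≠ f j (ih j hj)) ∧
      (∀ j hj, f i x ≠ ih j hj) := by
    intro i ih
    by_contra hc
    push Not at hc
    let S1 : Set X := Set.range (fun j : {j // r j i} => f j.1 (ih j.1 j.2))
    let S2 : Set X := Set.range (fun j : {j // r j i} => ih j.1 j.2)
    have hsub : {x | f i x ≠ x} ⊆ S1 ∪ (f i) ⁻¹' S2 := by
      intro x hx
      by_cases h1 : x ∈ S1
      · exact Or.inl h1
      · right
        obtain ⟨j, hj, h2⟩ := hc x hx (by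
          intro j hj he
          exact h1 ⟨⟨j, hj⟩, he.symm⟩)
        exact ⟨⟨j, hj⟩, h2.symm⟩
    have h1 : #X ≤ #(S1 ∪ (f i) ⁻¹' S2 : Set X) := (hM i).trans (Cardinal.mk_le_mk_of_subset hsub)
    have h2 : #S1 < #X := (Cardinal.mk_range_le.trans_lt (hlt i)).trans_le hI
    have h3 : #S2 < #X := (Cardinal.mk_range_le.trans_lt (hlt i)).trans_le hI
    have h4 : #((f i) ⁻¹' S2 : Set X) < #X :=
      (Cardinal.mk_preimage_of_injective (f i) S2 (hinj i)).trans_lt h3
    have h5 : #(S1 ∪ (f i) ⁻¹' S2 : Set X) < #X :=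
      (Cardinal.mk_union_le _ _).trans_lt (Cardinal.add_lt_of_lt hX h2 h4)
    exact absurd h1 (not_le.2 h5)
  have hwf : WellFounded r := wo.wf
  let x : I → X := hwf.fix (fun i ih => Classical.choose (hex i ih))
  have hx : ∀ i, f i (x i) ≠ x i ∧ (∀ j, r j i → x i ≠ f j (x j)) ∧
      (∀ j, r j i → f i (x i) ≠ x j) := by
    intro i
    have h := Classical.choose_spec (hex i (fun j _ => x j))
    have e : x i = Classical.choose (hex i (fun j _ => x j)) := by
      change hwf.fix _ i = _
      rw [hwf.fix_eq]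
    rw [← e] at h
    exact h
  refine ⟨x, fun i j => ?_⟩
  rcases trichotomous_of r i j with h | h | h
  · exact ((hx j).2.1 i h).symm
  · subst h; exact (hx i).1
  · exact (hx i).2.2 j h

theorem sel_main {G : Type u} [Group G] (α : G →* G) (h1 : α ≠ 1)
    (h2 : ∀ c : G, ∃ g, α g ≠ c * g * c⁻¹) :
    ∃ R : Set (G × ℕ), (∀ x ∈ R, x.1 ≠ 1) ∧ (∃ x ∈ R, α x.1 ≠ 1) ∧
      ∀ g₀ : G, ∃ x ∈ R, ¬ (α x.1 ≠ 1 ∧ (g₀ * α x.1 * g₀⁻¹, x.2) ∈ R) := by
  classical
  by_cases hinj : Function.Injective α
  · let f : G → G × ℕ → G × ℕ := fun g₀ x => (g₀ * α x.1 * g₀⁻¹, x.2)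
    have hf : ∀ g₀, Function.Injective (f g₀) := by
      intro g₀ x y hxy
      have e1 : g₀ * α x.1 * g₀⁻¹ = g₀ * α y.1 * g₀⁻¹ := congrArg Prod.fst hxy
      have e2 : (f g₀ x).2 = (f g₀ y).2 := congrArg Prod.snd hxy
      have e3 : α x.1 = α y.1 := by simpa using e1
      exact Prod.ext (hinj e3) e2
    obtain ⟨x, hx⟩ := sel f hf (Cardinal.mk_le_of_injective (f := fun g : G => (g, 0)) (by
        intro a b h; exact congrArg Prod.fst h))
      (by
        have : Infinite (G × ℕ) := inferInstance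
        exact Cardinal.infinite_iff.1 this) (by
        intro g₀
        obtain ⟨m, hm⟩ : ∃ m, g₀ * α m * g₀⁻¹ ≠ m := by
          obtain ⟨g, hg⟩ := h2 g₀⁻¹
          refine ⟨g, fun h => hg ?_⟩
          rw [inv_inv]
          have h' : g₀⁻¹ * (g₀ * α g * g₀⁻¹) * g₀ = g₀⁻¹ * g * g₀ := by rw [h]
          simpa [mul_assoc] using h'
        let j : G × ℕ → {x : G × ℕ // f g₀ x ≠ x} := fun x =>
          if h : g₀ * α x.1 * g₀⁻¹ ≠ x.1 then ⟨(x.1, 2 * x.2), fun e => h (congrArg Prod.fst e)⟩
          else ⟨(m * x.1, 2 * x.2 + 1), fun e => hm (by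
            have e1 : g₀ * α (m * x.1) * g₀⁻¹ = m * x.1 := congrArg Prod.fst e
            push Not at h
            have e2 : g₀ * α (m * x.1) * g₀⁻¹ = (g₀ * α m * g₀⁻¹) * (g₀ * α x.1 * g₀⁻¹) := by
              rw [map_mul]; group
            rw [e2, h] at e1
            exact mul_right_cancel e1)⟩
        apply Cardinal.mk_le_of_injective (f := j)
        intro a b hab
        by_cases ha : g₀ * α a.1 * g₀⁻¹ ≠ a.1
        · by_cases hb : g₀ * α b.1 * g₀⁻¹ ≠ b.1
          · have e := congrArg Subtype.val hab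
            simp only [j, dif_pos ha, dif_pos hb] at e
            have e1 := congrArg Prod.fst e
            have e2 := congrArg Prod.snd e
            simp only at e1 e2
            exact Prod.ext e1 (by omega)
          · have e := congrArg Subtype.val hab
            simp only [j, dif_pos ha, dif_neg hb] at e
            have e2 := congrArg Prod.snd e
            simp only at e2
            omega
        · by_cases hb : g₀ * α b.1 * g₀⁻¹ ≠ b.1
          · have e := congrArg Subtype.val hab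
            simp only [j, dif_neg ha, dif_pos hb] at e
            have e2 := congrArg Prod.snd e
            simp only at e2
            omega
          · have e := congrArg Subtype.val hab
            simp only [j, dif_neg ha, dif_neg hb] at e
            have e1 := congrArg Prod.fst e
            have e2 := congrArg Prod.snd e
            simp only at e1 e2
            exact Prod.ext (mul_left_cancel e1) (by omega))
    have hne : ∀ i, (x i).1 ≠ 1 := by
      intro i h
      apply hx i i
      change (i * α (x i).1 * i⁻¹, (x i).2) = x i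
      apply Prod.ext
      · simp [h]
      · rfl
    refine ⟨Set.range x, ?_, ?_, ?_⟩
    · rintro _ ⟨i, rfl⟩
      exact hne i
    · refine ⟨x 1, ⟨1, rfl⟩, fun h => hne 1 (hinj (by rw [h, map_one]))⟩
    · intro g₀
      refine ⟨x g₀, ⟨g₀, rfl⟩, ?_⟩
      rintro ⟨_, ⟨j, hj⟩⟩
      exact hx g₀ j hj.symm
  · obtain ⟨g₁, hg₁, hg₁'⟩ : ∃ g, α g = 1 ∧ g ≠ 1 := by
      rw [injective_iff_map_eq_one] at hinj
      push Not at hinj
      exact hinj
    obtain ⟨g₂, hg₂⟩ : ∃ g, α g ≠ 1 := by
      by_contra hc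
      push Not at hc
      exact h1 (MonoidHom.ext hc)
    refine ⟨{(g₁, 0), (g₂, 0)}, ?_, ?_, ?_⟩
    · rintro x (rfl | rfl)
      · exact hg₁'
      · rintro rfl
        exact hg₂ (map_one _)
    · exact ⟨(g₂, 0), Or.inr rfl, hg₂⟩
    · intro g₀
      exact ⟨(g₁, 0), Or.inl rfl, fun h => h.1 hg₁⟩

end Pool.Agent.V1119.EX
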