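import Mathlib
import Pool.Agent.V1119.EX.Star

set_option autoImplicit false
set_option linter.unusedSectionVars false

/-! Conjugacy of cyclically reduced elements of a free product of two groups. -/

namespace Pool.Agent.V1119.EX

open Monoid

universe u

/-- The free product of two groups. -/
abbrev FP (G A : Type u) [Group G] [Group A] : Type u := CoprodI (XX G A)

/-- Letters. -/
abbrev Lt (G A : Type u) : Type u := Σ b, XX G A b

section

variable {G A : Type u} [Group G] [Group A]

/-- The product of a list of letters. -/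
def pr (l : List (Lt G A)) : FP G A := (l.map (fun x => CoprodI.of x.2)).prod

/-- Reduced lists. -/
def red (l : List (Lt G A)) : Prop :=
  (∀ x ∈ l, x.2 ≠ 1) ∧ l.IsChain (fun a b => a.1 ≠ b.1)

theorem pr_nil : pr ([] : List (Lt G A)) = 1 := rfl

theorem pr_cons (x : Lt G A) (l : List (Lt G A)) : pr (x :: l) = CoprodI.of x.2 * pr l := by
  simp [pr]

theorem pr_append (l l' : List (Lt G A)) : pr (l ++ l') = pr l * pr l' := by
  simp [pr]

theorem pr_one (x : Lt G A) : pr [x] = CoprodI.of x.2 := by
  simp [pr]

theorem red_unique {l l' : List (Lt G A)} (h : red l) (h' : red l') (e : pr l = pr l') :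
    l = l' := by
  classical
  let w : CoprodI.Word (XX G A) := ⟨l, h.1, h.2⟩
  let w' : CoprodI.Word (XX G A) := ⟨l', h'.1, h'.2⟩
  have h1 : w.prod = w'.prod := e
  have h2 : w = w' := (CoprodI.Word.equiv (M := XX G A)).symm.injective h1
  exact congrArg CoprodI.Word.toList h2

theorem exists_red (g : FP G A) : ∃ l, red l ∧ pr l = g := by
  classical
  let w := (CoprodI.Word.equiv (M := XX G A)) g
  refine ⟨w.toList, ⟨w.ne_one, w.chain_ne⟩, ?_⟩
  exact (CoprodI.Word.equiv (M := XX G A)).symm_apply_apply g

/-- The inverse list. -/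
def il (l : List (Lt G A)) : List (Lt G A) := (l.map (fun x => (⟨x.1, x.2⁻¹⟩ : Lt G A))).reverse

theorem il_append (l l' : List (Lt G A)) : il (l ++ l') = il l' ++ il l := by
  simp [il]

theorem pr_il (l : List (Lt G A)) : pr (il l) = (pr l)⁻¹ := by
  induction l with
  | nil => simp [il, pr]
  | cons x l ih =>
    have : il (x :: l) = il l ++ [⟨x.1, x.2⁻¹⟩] := by simp [il]
    rw [this, pr_append, ih, pr_cons, pr_cons, pr_nil, mul_one, mul_inv_rev, map_inv]

theorem red_nil : red ([] : List (Lt G A)) := ⟨by simp, List.IsChain.nil⟩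

theorem red_cons {x : Lt G A} {l : List (Lt G A)} :
    red (x :: l) ↔ x.2 ≠ 1 ∧ red l ∧ ∀ b ∈ l.head?, x.1 ≠ b.1 := by
  unfold red
  rw [List.isChain_cons]
  simp only [List.mem_cons, forall_eq_or_imp]
  tauto

theorem red_append {l l' : List (Lt G A)} :
    red (l ++ l') ↔ red l ∧ red l' ∧ ∀ a ∈ l.getLast?, ∀ b ∈ l'.head?, a.1 ≠ b.1 := by
  unfold red
  rw [List.isChain_append]
  constructor
  · rintro ⟨h1, h2, h3, h4⟩
    exact ⟨⟨fun x hx => h1 x (by simp [hx]), h2⟩, ⟨fun x hx => h1 x (by simp [hx]), h3⟩, h4⟩
  · rintro ⟨⟨h1, h2⟩, ⟨h3, h4⟩, h5⟩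
    refine ⟨?_, h2, h4, h5⟩
    intro x hx
    rcases List.mem_append.1 hx with hx | hx
    · exact h1 x hx
    · exact h3 x hx

theorem red_il {l : List (Lt G A)} (h : red l) : red (il l) := by
  constructor
  · intro x hx
    simp only [il, List.mem_reverse, List.mem_map] at hx
    obtain ⟨y, hy, rfl⟩ := hx
    have := h.1 y hy
    simpa using this
  · unfold il
    rw [List.isChain_reverse, List.isChain_map]
    have h2 := h.2
    refine h2.imp ?_
    intro a b hab
    exact hab.symm

/-- Type of the first letter. -/
def hd (l : List (Lt G A)) : Option Bool := l.head?.map Sigma.fst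

/-- Type of the last letter. -/
def ls (l : List (Lt G A)) : Option Bool := l.getLast?.map Sigma.fst

theorem il_head (l : List (Lt G A)) : hd (il l) = ls l := by
  unfold il hd ls
  rw [List.head?_reverse, List.getLast?_map]
  cases l.getLast? <;> rfl

theorem il_last (l : List (Lt G A)) : ls (il l) = hd l := by
  unfold il hd ls
  rw [List.getLast?_reverse, List.head?_map]
  cases l.head? <;> rfl

theorem red_append' {l l' : List (Lt G A)} :
    red (l ++ l') ↔ red l ∧ red l' ∧ ∀ b, ls l = some b → hd l' ≠ some b := by
  rw [red_append]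
  refine and_congr_right fun _ => and_congr_right fun _ => ?_
  unfold ls hd
  constructor
  · intro h b h1 h2
    rw [Option.map_eq_some_iff] at h1 h2
    obtain ⟨x, hx, rfl⟩ := h1
    obtain ⟨y, hy, he⟩ := h2
    exact h x hx y hy he.symm
  · intro h x hx y hy he
    apply h x.1
    · rw [Option.map_eq_some_iff]; exact ⟨x, hx, rfl⟩
    · rw [Option.map_eq_some_iff]; exact ⟨y, hy, he.symm⟩

@[simp] theorem hd_nil : hd ([] : List (Lt G A)) = none := rfl
@[simp] theorem ls_nil : ls ([] : List (Lt G A)) = none := rfl
@[simp] theorem hd_cons (x : Lt G A) (l : List (Lt G A)) : hd (x :: l) = some x.1 := rfl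
@[simp] theorem ls_one (x : Lt G A) : ls [x] = some x.1 := rfl
@[simp] theorem ls_append_one (l : List (Lt G A)) (x : Lt G A) : ls (l ++ [x]) = some x.1 := by
  simp [ls]
theorem ls_append {l l' : List (Lt G A)} (h : l' ≠ []) : ls (l ++ l') = ls l' := by
  unfold ls
  rw [List.getLast?_append_of_ne_nil _ h]
theorem hd_append {l l' : List (Lt G A)} (h : l ≠ []) : hd (l ++ l') = hd l := by
  cases l with
  | nil => exact absurd rfl h
  | cons x l => rfl

theorem il_ne_nil {l : List (Lt G A)} (h : l ≠ []) : il l ≠ [] := by
  unfold il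
  simpa using h

theorem red_one {b : Bool} {y : XX G A b} : red [(⟨b, y⟩ : Lt G A)] ↔ y ≠ 1 := by
  rw [red_cons]
  simp [red_nil]

theorem conj_cases (p : List (Lt G A)) : red p → ∀ W : List (Lt G A), red W → hd W ≠ ls W →
    ∀ Z : List (Lt G A), red Z → pr Z = pr p * pr W * (pr p)⁻¹ →
    (∃ k, Z = W.rotate k) ∨ (3 ≤ Z.length ∧ hd Z = ls Z) := by
  induction p using List.reverseRecOn with
  | nil =>
    intro _ W hW _ Z hZ e
    left
    refine ⟨0, ?_⟩
    rw [List.rotate_zero]
    apply red_unique hZ hW
    rw [e]
    simp [pr]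
  | append_singleton p y ih =>
    intro hp W hW hWt Z hZ e
    have hp' := (red_append'.1 hp)
    -- decompose `W`
    obtain ⟨w₁, W', rfl⟩ : ∃ w₁ W', W = w₁ :: W' := by
      cases W with
      | nil => exact absurd rfl hWt
      | cons a l => exact ⟨a, l, rfl⟩
    obtain ⟨W₂, w₂, rfl⟩ : ∃ W₂ w₂, W' = W₂ ++ [w₂] := by
      rcases List.eq_nil_or_concat' W' with h | ⟨l, a, h⟩
      · subst h; exact absurd rfl hWt
      · exact ⟨l, a, h⟩
    have hne : w₁.1 ≠ w₂.1 := by
      intro h
      apply hWt
      rw [hd_cons, show w₁ :: (W₂ ++ [w₂]) = (w₁ :: W₂) ++ [w₂] from rfl, ls_append_one, h]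
    by_cases hb : y.1 = w₁.1
    · obtain ⟨b, y⟩ := y
      obtain ⟨b₁, u⟩ := w₁
      dsimp at hb hne
      subst hb
      by_cases h1 : y * u = 1
      · have hW' := hW
        rw [show (⟨b, u⟩ : Lt G A) :: (W₂ ++ [w₂]) = [⟨b, u⟩] ++ (W₂ ++ [w₂]) from rfl,
          red_append'] at hW'
        rcases ih hp'.1 (W₂ ++ [w₂] ++ [⟨b, u⟩]) (by
            rw [red_append']
            refine ⟨hW'.2.1, hW'.1, ?_⟩
            intro c hc
            rw [ls_append_one] at hc
            rw [hd_cons]
            intro h2
            rw [← hc] at h2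
            exact hne (Option.some.inj h2)) (by
            rw [ls_append_one]
            have h3 := hW'.2.2 b rfl
            rw [hd_append (by simp)]
            exact h3) Z hZ (by
            rw [e, pr_append, pr_append (W₂ ++ [w₂]), pr_one, pr_one, pr_cons]
            have h4 : (CoprodI.of (⟨b, y⟩ : Lt G A).2 : FP G A) =
                (CoprodI.of (⟨b, u⟩ : Lt G A).2)⁻¹ := by
              rw [← map_inv]
              congr 1
              exact eq_inv_of_mul_eq_one_left h1
            rw [h4]
            group) with ⟨k, hk⟩ | h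
        · left
          exact ⟨k + 1, by rw [hk, List.rotate_cons_succ]⟩
        · exact Or.inr h
      · right
        have hZ' : Z = (p ++ [⟨b, y * u⟩]) ++ ((W₂ ++ [w₂]) ++ il (p ++ [⟨b, y⟩])) := by
          apply red_unique hZ
          · rw [red_append', red_append', red_append']
            have hW' := hW
            rw [show (⟨b, u⟩ : Lt G A) :: (W₂ ++ [w₂]) = [⟨b, u⟩] ++ (W₂ ++ [w₂]) from rfl,
              red_append'] at hW'
            refine ⟨⟨hp'.1, red_one.2 h1, hp'.2.2⟩, ⟨hW'.2.1, red_il hp, ?_⟩, ?_⟩
            · intro c hc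
              rw [ls_append_one] at hc
              rw [il_head, ls_append_one]
              intro h2
              rw [← hc] at h2
              exact hne (Option.some.inj h2)
            · intro c hc
              rw [ls_append_one] at hc
              rw [hd_append (by simp)]
              have h3 := hW'.2.2 b rfl
              rw [← hc]
              exact h3
          · rw [e]
            simp only [pr_append, pr_cons, pr_il, map_mul, map_inv, mul_inv_rev,
              mul_assoc, pr_nil, mul_one]
        rw [hZ']
        constructor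
        · simp [il]; omega
        · rw [hd_append (by simp), ls_append (by simp), ls_append (il_ne_nil (by simp)), il_last]
          cases p <;> rfl
    · obtain ⟨b, y⟩ := y
      obtain ⟨b₂, v⟩ := w₂
      have hb2 : b = b₂ := by
        dsimp at hb hne
        revert hb hne
        cases b <;> cases b₂ <;> cases w₁.1 <;> simp
      dsimp at hb hne
      subst hb2
      have hW' := hW
      rw [show w₁ :: (W₂ ++ [(⟨b, v⟩ : Lt G A)]) = (w₁ :: W₂) ++ [⟨b, v⟩] from rfl,
          red_append'] at hW'
      by_cases h1 : v * y⁻¹ = 1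
      · rcases ih hp'.1 (⟨b, v⟩ :: (w₁ :: W₂)) (by
            rw [show (⟨b, v⟩ : Lt G A) :: (w₁ :: W₂) = [⟨b, v⟩] ++ (w₁ :: W₂) from rfl,
              red_append']
            refine ⟨hW'.2.1, hW'.1, ?_⟩
            intro c hc
            rw [ls_one] at hc
            rw [hd_cons, ← hc]
            intro h2
            exact hne (Option.some.inj h2)) (by
            rw [hd_cons]
            intro h3
            have h4 : ls (w₁ :: W₂) = some b := by
              rw [h3, show (⟨b, v⟩ : Lt G A) :: (w₁ :: W₂) = [⟨b, v⟩] ++ (w₁ :: W₂) from rfl,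
                ls_append (by simp)]
            exact hW'.2.2 b h4 rfl) Z hZ (by
            rw [e, pr_append, pr_one,
              show w₁ :: (W₂ ++ [(⟨b, v⟩ : Lt G A)]) = (w₁ :: W₂) ++ [⟨b, v⟩] from rfl,
              pr_append, pr_one, pr_cons (⟨b, v⟩ : Lt G A)]
            have h4 : (CoprodI.of (⟨b, y⟩ : Lt G A).2 : FP G A) =
                (CoprodI.of (⟨b, v⟩ : Lt G A).2) := by
              congr 1
              exact (mul_inv_eq_one.1 h1).symm
            rw [h4]
            group) with ⟨k, hk⟩ | h
        · left
          refine ⟨k + (W₂.length + 1), ?_⟩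
          rw [hk, show w₁ :: (W₂ ++ [(⟨b, v⟩ : Lt G A)]) = (w₁ :: W₂) ++ [⟨b, v⟩] from rfl,
            Nat.add_comm, ← List.rotate_rotate]
          congr 1
          have := List.rotate_append_length_eq (w₁ :: W₂) [(⟨b, v⟩ : Lt G A)]
          rw [List.length_cons] at this
          rw [this]
          rfl
        · exact Or.inr h
      · right
        have hZ' : Z = ((p ++ [⟨b, y⟩]) ++ (w₁ :: W₂)) ++ (⟨b, v * y⁻¹⟩ :: il p) := by
          apply red_unique hZ
          · rw [red_append', red_append']
            have hil := red_il hp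
            rw [il_append, show il [(⟨b, y⟩ : Lt G A)] = [⟨b, y⁻¹⟩] from rfl, red_append'] at hil
            refine ⟨⟨hp, hW'.1, ?_⟩, ?_, ?_⟩
            · intro c hc
              rw [ls_append_one] at hc
              rw [hd_cons, ← hc]
              intro h2
              exact hne (Option.some.inj h2)
            · rw [show (⟨b, v * y⁻¹⟩ : Lt G A) :: il p = [⟨b, v * y⁻¹⟩] ++ il p from rfl,
                red_append']
              exact ⟨red_one.2 h1, hil.2.1, hil.2.2⟩
            · intro c hc
              rw [ls_append (by simp)] at hc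
              exact hW'.2.2 c hc
          · rw [e, show w₁ :: (W₂ ++ [(⟨b, v⟩ : Lt G A)]) = (w₁ :: W₂) ++ [⟨b, v⟩] from rfl]
            simp only [pr_append, pr_cons, pr_il, map_mul, map_inv, mul_inv_rev,
              mul_assoc, pr_nil, mul_one]
        rw [hZ']
        constructor
        · simp [il]; omega
        · rw [List.append_assoc, hd_append (by simp), ls_append (by simp), ls_append (by simp),
            show (⟨b, v * y⁻¹⟩ : Lt G A) :: il p = [⟨b, v * y⁻¹⟩] ++ il p from rfl]
          by_cases hp0 : p = []
          · subst hp0; rfl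
          · rw [ls_append (il_ne_nil hp0), il_last, hd_append hp0]

end

end Pool.Agent.V1119.EX
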