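import Mathlib
import Pool.Agent.V1119.EX.Conj

set_option autoImplicit false
set_option linter.unusedSectionVars false
set_option linter.unusedSimpArgs false

/-! The words `g x g⁻¹ x² g x^(n+4)`. -/

namespace Pool.Agent.V1119.EX

open Monoid

universe u

section

variable {G A : Type u} [Group G] [Group A]

/-- Letters of the first group. -/
def lG (g : G) : Lt G A := ⟨false, g⟩

/-- Letters of the second group. -/
def lA (a : A) : Lt G A := ⟨true, a⟩

/-- The first group. -/
def oG : G →* FP G A := (CoprodI.of (M := XX G A) (i := false) : XX G A false →* FP G A)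

/-- The second group. -/
def oA : A →* FP G A := (CoprodI.of (M := XX G A) (i := true) : XX G A true →* FP G A)

theorem pr_lG (g : G) (l : List (Lt G A)) : pr (lG g :: l) = oG g * pr l := pr_cons _ _
theorem pr_lA (a : A) (l : List (Lt G A)) : pr (lA a :: l) = oA a * pr l := pr_cons _ _

theorem red_lG {g : G} (h : g ≠ 1) : red [(lG g : Lt G A)] := red_one.2 h
theorem red_lA {a : A} (h : a ≠ 1) : red [(lA a : Lt G A)] := red_one.2 h

/-- A block. -/
def blk (k : List (Lt G A)) (a : G) (y : A) : List (Lt G A) := k ++ ([lG a] ++ (il k ++ [lA y]))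

theorem pr_blk (k : List (Lt G A)) (a : G) (y : A) :
    pr (blk k a y) = pr k * oG a * (pr k)⁻¹ * oA y := by
  unfold blk
  simp only [pr_append, pr_lG, pr_lA, pr_nil, pr_il, mul_one, mul_assoc]

theorem hd_blk {k : List (Lt G A)} (h : hd k ≠ some true) (a : G) (y : A) :
    hd (blk k a y) = some false := by
  unfold blk
  by_cases hk : k = []
  · subst hk; rfl
  · rw [hd_append hk]
    cases k with
    | nil => exact absurd rfl hk
    | cons z l =>
      rw [hd_cons] at h ⊢
      cases h2 : z.1 with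
      | false => rfl
      | true => rw [h2] at h; exact absurd rfl h

theorem ls_blk (k : List (Lt G A)) (a : G) (y : A) : ls (blk k a y) = some true := by
  unfold blk
  rw [ls_append (by simp), ls_append (by simp), ls_append (by simp)]
  rfl

theorem red_blk {k : List (Lt G A)} (hk : red k) (h1 : hd k ≠ some true)
    (h2 : ls k ≠ some false) {a : G} (ha : a ≠ 1) {y : A} (hy : y ≠ 1) : red (blk k a y) := by
  unfold blk
  rw [red_append', red_append', red_append']
  refine ⟨hk, ⟨red_lG ha, ⟨red_il hk, red_lA hy, ?_⟩, ?_⟩, ?_⟩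
  · intro b hb
    rw [il_last] at hb
    intro h
    have : b = true := (Option.some.inj h).symm
    rw [this] at hb
    exact h1 hb
  · intro b hb
    have hb' : b = false := (Option.some.inj hb).symm
    subst hb'
    by_cases hk0 : k = []
    · subst hk0
      simp [il, lA]
    · rw [hd_append (il_ne_nil hk0), il_head]
      exact h2
  · intro b hb h
    have : b = false := (Option.some.inj h).symm
    rw [this] at hb
    exact h2 hb

/-- The list with three blocks. -/
def bl (k : List (Lt G A)) (a : G) (x : A) (n : ℕ) : List (Lt G A) :=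
  blk k a (x ^ (1 : ℤ)) ++ (blk k a⁻¹ (x ^ (2 : ℤ)) ++ blk k a (x ^ ((n : ℤ) + 4)))

theorem blk_ne_nil (k : List (Lt G A)) (a : G) (y : A) : blk k a y ≠ [] := by
  unfold blk; simp

theorem hd_bl {k : List (Lt G A)} (h : hd k ≠ some true) (a : G) (x : A) (n : ℕ) :
    hd (bl k a x n) = some false := by
  unfold bl
  rw [hd_append (blk_ne_nil _ _ _), hd_blk h]

theorem ls_bl (k : List (Lt G A)) (a : G) (x : A) (n : ℕ) : ls (bl k a x n) = some true := by
  unfold bl
  rw [ls_append (by simp [blk]), ls_append (blk_ne_nil _ _ _), ls_blk]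

theorem red_bl {k : List (Lt G A)} (hk : red k) (h1 : hd k ≠ some true)
    (h2 : ls k ≠ some false) {a : G} (ha : a ≠ 1) {x : A} (hx : ∀ n : ℤ, x ^ n = 1 → n = 0)
    (n : ℕ) : red (bl k a x n) := by
  unfold bl
  rw [red_append', red_append']
  have hj : ∀ (a a' : G) (y y' : A) (L : List (Lt G A)) (b : Bool),
      ls (blk k a y) = some b → hd (blk k a' y' ++ L) ≠ some b := by
    intro a a' y y' L b hb
    rw [ls_blk] at hb
    rw [hd_append (blk_ne_nil _ _ _), hd_blk h1, ← hb]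
    simp
  refine ⟨red_blk hk h1 h2 ha ?_, ⟨red_blk hk h1 h2 (inv_ne_one.2 ha) ?_,
    red_blk hk h1 h2 ha ?_, ?_⟩, ?_⟩
  · intro h; have := hx _ h; omega
  · intro h; have := hx _ h; omega
  · intro h; have := hx _ h; omega
  · intro b hb
    have := hj _ a _ (x ^ ((n : ℤ) + 4)) [] b hb
    rwa [List.append_nil] at this
  · intro b hb
    exact hj _ _ _ _ _ b hb

theorem pr_bl (k : List (Lt G A)) (a : G) (x : A) (n : ℕ) :
    pr (bl k a x n) = pr k * oG a * (pr k)⁻¹ * oA x * (pr k * (oG a)⁻¹ * (pr k)⁻¹ * oA x ^ 2) *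
      (pr k * oG a * (pr k)⁻¹ * oA x ^ (n + 4)) := by
  unfold bl
  rw [pr_append, pr_append, pr_blk, pr_blk, pr_blk, map_inv, map_zpow, map_zpow, map_zpow,
    zpow_one, ← mul_assoc]
  congr 2
  rw [← zpow_natCast]
  push_cast
  rfl

/-- The word as an element. -/
def ww (x : A) (g : G) (n : ℕ) : FP G A := pr (bl [] g x n)

theorem ww_eq (x : A) (g : G) (n : ℕ) :
    ww x g n = oG g * oA x * ((oG g)⁻¹ * oA x ^ 2) * (oG g * oA x ^ (n + 4)) := by
  unfold ww
  rw [pr_bl, pr_nil]
  simp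

/-- Powers of a list. -/
def fl' (L : List (Lt G A)) (m : ℕ) : List (Lt G A) := (List.replicate m L).flatten

theorem fl'_succ (L : List (Lt G A)) (m : ℕ) : fl' L (m + 1) = L ++ fl' L m := by
  simp [fl', List.replicate_succ]

theorem pr_fl' (L : List (Lt G A)) (m : ℕ) : pr (fl' L m) = pr L ^ m := by
  induction m with
  | zero => simp [fl', pr]
  | succ m ih => rw [fl'_succ, pr_append, ih, pow_succ']

theorem length_fl' (L : List (Lt G A)) (m : ℕ) : (fl' L m).length = m * L.length := by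
  simp [fl']

theorem mem_fl' {L : List (Lt G A)} {m : ℕ} {z : Lt G A} (h : z ∈ fl' L m) : z ∈ L := by
  simp only [fl', List.mem_flatten, List.mem_replicate] at h
  obtain ⟨l, ⟨_, rfl⟩, h⟩ := h
  exact h

theorem red_fl' {L : List (Lt G A)} (hL : red L) (h1 : hd L = some false)
    (h2 : ls L = some true) (m : ℕ) :
    red (fl' L m) ∧ (0 < m → hd (fl' L m) = some false ∧ ls (fl' L m) = some true) := by
  have hne : L ≠ [] := by rintro rfl; simp at h1
  induction m with
  | zero => exact ⟨by simpa [fl'] using red_nil, by omega⟩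
  | succ m ih =>
    rw [fl'_succ]
    rcases Nat.eq_zero_or_pos m with rfl | hm
    · have : fl' L 0 = [] := by simp [fl']
      rw [this, List.append_nil]
      exact ⟨hL, fun _ => ⟨h1, h2⟩⟩
    · obtain ⟨h3, h4⟩ := ih.2 hm
      have hne' : fl' L m ≠ [] := by intro h; rw [h] at h3; simp at h3
      refine ⟨red_append'.2 ⟨hL, ih.1, ?_⟩, fun _ => ⟨?_, ?_⟩⟩
      · intro b hb
        rw [h2] at hb
        rw [h3, ← hb]; simp
      · rw [hd_append hne, h1]
      · rw [ls_append hne', h4]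

/-- A reduced list for an integral power. -/
theorem exists_power {L : List (Lt G A)} (hL : red L) (h1 : hd L = some false)
    (h2 : ls L = some true) {m : ℤ} (hm : m ≠ 0) :
    ∃ W : List (Lt G A), red W ∧ hd W ≠ ls W ∧ pr W = pr L ^ m ∧
      W.length = m.natAbs * L.length ∧
      ((0 < m ∧ W = fl' L m.toNat) ∨ (m < 0 ∧ W = il (fl' L (-m).toNat))) := by
  rcases lt_or_gt_of_ne hm with h | h
  · obtain ⟨h3, h4⟩ := red_fl' hL h1 h2 (-m).toNat
    obtain ⟨h4, h5⟩ := h4 (by omega)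
    refine ⟨il (fl' L (-m).toNat), red_il h3, ?_, ?_, ?_, Or.inr ⟨h, rfl⟩⟩
    · rw [il_head, il_last, h4, h5]; simp
    · rw [pr_il, pr_fl', ← zpow_natCast, ← zpow_neg]
      congr 1
      omega
    · rw [il, List.length_reverse, List.length_map, length_fl']
      congr 1
      omega
  · obtain ⟨h3, h4⟩ := red_fl' hL h1 h2 m.toNat
    obtain ⟨h4, h5⟩ := h4 (by omega)
    refine ⟨fl' L m.toNat, h3, ?_, ?_, ?_, Or.inl ⟨h, rfl⟩⟩
    · rw [h4, h5]; simp
    · rw [pr_fl', ← zpow_natCast]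
      congr 1
      omega
    · rw [length_fl']
      congr 1
      omega

theorem length_bl_nil (a : G) (x : A) (n : ℕ) : (bl ([] : List (Lt G A)) a x n).length = 6 := by
  simp [bl, blk, il]

theorem no_conj_letter {x : A} (hx : ∀ n : ℤ, x ^ n = 1 → n = 0) {g : G} (hg : g ≠ 1) (n : ℕ)
    {m : ℤ} (hm : m ≠ 0) (p : FP G A) (b : Bool) (y : XX G A b) :
    (CoprodI.of y : FP G A) ≠ p * ww x g n ^ m * p⁻¹ := by
  intro e
  obtain ⟨W, hW1, hW2, hW3, hW4, _⟩ := exists_power
    (red_bl red_nil (by simp) (by simp) hg hx n) (hd_bl (by simp) g x n) (ls_bl _ g x n) hm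
  rw [length_bl_nil] at hW4
  obtain ⟨l, hl, rfl⟩ := exists_red p
  obtain ⟨Z, hZ1, hZ2, hZ3⟩ : ∃ Z : List (Lt G A), red Z ∧ Z.length ≤ 1 ∧
      pr Z = CoprodI.of y := by
    by_cases hy : y = 1
    · exact ⟨[], red_nil, by simp, by rw [hy, map_one]; rfl⟩
    · exact ⟨[⟨b, y⟩], red_one.2 hy, by simp, pr_one _⟩
  rcases conj_cases l hl W hW1 hW2 Z hZ1 (by rw [hZ3, e, hW3]; rfl) with ⟨r, hr⟩ | ⟨h, _⟩
  · rw [hr, List.length_rotate, hW4] at hZ2
    omega
  · omega

theorem rot {x : A} (hx : ∀ n : ℤ, x ^ n = 1 → n = 0) {k : List (Lt G A)} (hk : red k)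
    (hk1 : hd k ≠ some true) (hk2 : ls k ≠ some false) {a : G} (ha : a ≠ 1) {x' : A}
    (hx' : ∀ n : ℤ, x' ^ n = 1 → n = 0) {n : ℕ} {g : G} (hg : g ≠ 1) {n' : ℕ} {m : ℤ}
    (hm : m ≠ 0) {p : FP G A} (e : pr (bl k a x' n) = p * ww x g n' ^ m * p⁻¹) :
    k = [] ∧ a = g ∧ n = n' := by
  have hinj : ∀ s t : ℤ, x ^ s = x ^ t → s = t := by
    intro s t h
    have := hx (s - t) (by rw [zpow_sub, h, mul_inv_cancel])
    omega
  obtain ⟨W, hW1, hW2, hW3, hW4, hW5⟩ := exists_power
    (red_bl red_nil (by simp) (by simp) hg hx n') (hd_bl (by simp) g x n') (ls_bl _ g x n') hm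
  rw [length_bl_nil] at hW4
  obtain ⟨l, hl, rfl⟩ := exists_red p
  rcases conj_cases l hl W hW1 hW2 _ (red_bl hk hk1 hk2 ha hx' n) (by rw [e, hW3]; rfl) with
    ⟨r, hr⟩ | ⟨_, h⟩
  swap
  · rw [hd_bl hk1, ls_bl] at h; simp at h
  -- sign
  have hsign : ∃ ε : ℤ, ε ≠ 0 ∧ ∀ y : A, lA y ∈ W → ∃ s : ℤ, 0 < s ∧ y = x ^ (ε * s) := by
    have hb : ∀ y : A, lA y ∈ bl ([] : List (Lt G A)) g x n' → ∃ s : ℤ, 0 < s ∧ y = x ^ s := by
      intro y hy
      simp only [bl, blk, il, List.map_nil, List.reverse_nil, List.nil_append, List.cons_append,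
        List.mem_cons, List.not_mem_nil, or_false, lA, lG, Sigma.mk.injEq] at hy
      simp only [Bool.true_eq_false, false_and, false_or, or_false, true_and, heq_eq_eq] at hy
      rcases hy with hy | hy | hy
      · exact ⟨1, by omega, hy⟩
      · exact ⟨2, by omega, hy⟩
      · exact ⟨(n' : ℤ) + 4, by omega, hy⟩
    rcases hW5 with ⟨_, h⟩ | ⟨_, h⟩
    · refine ⟨1, by omega, fun y hy => ?_⟩
      rw [h] at hy
      obtain ⟨s, hs, h2⟩ := hb y (mem_fl' hy)
      exact ⟨s, hs, by rw [one_mul]; exact h2⟩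
    · refine ⟨-1, by omega, fun y hy => ?_⟩
      rw [h] at hy
      simp only [il, List.mem_reverse, List.mem_map] at hy
      obtain ⟨z, hz, h2⟩ := hy
      obtain ⟨b, z⟩ := z
      have hb' : b = true := congrArg Sigma.fst h2
      subst hb'
      have h3 : (z : A)⁻¹ = y := eq_of_heq (Sigma.mk.inj h2).2
      obtain ⟨s, hs, h4⟩ := hb z (mem_fl' hz)
      refine ⟨s, hs, ?_⟩
      have h5 : y = (x ^ s)⁻¹ := h3.symm.trans (congrArg (fun t : A => t⁻¹) h4)
      rw [h5, ← zpow_neg]
      congr 1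
      ring
  have hmem : ∀ z, z ∈ bl k a x' n → z ∈ W := by
    intro z hz
    rw [hr] at hz
    exact List.mem_rotate.1 hz
  have hk0 : k = [] := by
    rcases List.eq_nil_or_concat' k with h | ⟨k', z, h⟩
    · exact h
    · exfalso
      subst h
      obtain ⟨b, z⟩ := z
      rw [ls_append_one] at hk2
      have hb : b = true := by
        cases b with
        | true => rfl
        | false => exact absurd rfl hk2
      subst hb
      obtain ⟨ε, hε, h1⟩ := hsign
      obtain ⟨s, hs, h2⟩ := h1 z (hmem _ (by simp [bl, blk, lA]))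
      obtain ⟨t, ht, h3⟩ := h1 (z : A)⁻¹ (hmem _ (by
        have : (lA (z : A)⁻¹ : Lt G A) ∈ il (k' ++ [⟨true, z⟩]) := by
          simp [il, lA]
          exact Or.inl rfl
        simp only [bl, blk, List.mem_append]
        tauto))
      have h4 := hinj (ε * s + ε * t) 0 (by
        rw [zpow_add, ← h2, ← h3, zpow_zero]
        exact mul_inv_cancel z)
      have h5 : ε * (s + t) = 0 := by linarith
      rcases mul_eq_zero.1 h5 with h6 | h6
      · exact hε h6
      · omega
  refine ⟨hk0, ?_⟩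
  subst hk0
  have hlen : (bl ([] : List (Lt G A)) a x' n).length = W.length := by
    rw [hr, List.length_rotate]
  rw [length_bl_nil, hW4] at hlen
  have two : ∀ s t : ℤ, x' ^ (1 : ℤ) = x ^ s → x' ^ (2 : ℤ) = x ^ t → 2 * s = t := by
    intro s t h1 h2
    apply hinj
    rw [← h2, mul_comm, zpow_mul, ← h1, ← zpow_mul]
    rfl
  have hWlen : W.length = 6 := by omega
  rw [← List.rotate_mod, hWlen] at hr
  have hr6 : r % 6 < 6 := Nat.mod_lt _ (by norm_num)
  generalize r % 6 = q at hr hr6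
  rcases hW5 with ⟨hm0, hW⟩ | ⟨hm0, hW⟩
  · have h1 : m.toNat = 1 := by omega
    rw [h1] at hW
    have hW' : W = [lG g, lA (x ^ (1 : ℤ)), lG g⁻¹, lA (x ^ (2 : ℤ)), lG g,
        lA (x ^ ((n' : ℤ) + 4))] := by
      rw [hW]; simp [fl', bl, blk, il]
    rw [hW'] at hr
    have hL : bl ([] : List (Lt G A)) a x' n = [lG a, lA (x' ^ (1 : ℤ)), lG a⁻¹,
        lA (x' ^ (2 : ℤ)), lG a, lA (x' ^ ((n : ℤ) + 4))] := by
      simp [bl, blk, il]
    rw [hL] at hr
    interval_cases q
    · simp only [List.rotate_zero, List.cons.injEq, lG, lA, Sigma.mk.injEq, heq_eq_eq, true_and,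
        and_true] at hr
      obtain ⟨h1, h2, _, _, _, h3⟩ := hr
      refine ⟨h1, ?_⟩
      rw [zpow_one, zpow_one] at h2
      rw [h2] at h3
      have := hinj _ _ h3
      omega
    · simp [lG, lA] at hr
    · simp only [List.rotate_cons_succ, List.rotate_zero, List.cons_append, List.nil_append,
        List.cons.injEq, lG, lA, Sigma.mk.injEq, heq_eq_eq, true_and, and_true] at hr
      obtain ⟨h1, h2, _, h4, _, h3⟩ := hr
      exfalso
      have h5 := two _ _ h2 h4
      have h6 : x ^ ((2 : ℤ) * ((n : ℤ) + 4)) = x ^ (1 : ℤ) := by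
        rw [← h3, zpow_mul, ← h2, zpow_one]
      have := hinj _ _ h6
      omega
    · simp [lG, lA] at hr
    · simp only [List.rotate_cons_succ, List.rotate_zero, List.cons_append, List.nil_append,
        List.cons.injEq, lG, lA, Sigma.mk.injEq, heq_eq_eq, true_and, and_true] at hr
      obtain ⟨h1, h2, _, h4, _, h3⟩ := hr
      exfalso
      have h5 := two _ _ h2 h4
      omega
    · simp [lG, lA] at hr
  · have h1 : (-m).toNat = 1 := by omega
    rw [h1] at hW
    have hW' : W = [lA (x ^ (-((n' : ℤ) + 4))), lG g⁻¹, lA (x ^ (-(2 : ℤ))), lG g,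
        lA (x ^ (-(1 : ℤ))), lG g⁻¹] := by
      rw [hW, zpow_neg, zpow_neg, zpow_neg]
      simp [fl', bl, blk, il, lG, lA]
      exact ⟨rfl, rfl, rfl, inv_inv g, rfl, rfl⟩
    rw [hW'] at hr
    have hL : bl ([] : List (Lt G A)) a x' n = [lG a, lA (x' ^ (1 : ℤ)), lG a⁻¹,
        lA (x' ^ (2 : ℤ)), lG a, lA (x' ^ ((n : ℤ) + 4))] := by
      simp [bl, blk, il]
    rw [hL] at hr
    interval_cases q
    · simp [lG, lA] at hr
    · simp only [List.rotate_cons_succ, List.rotate_zero, List.cons_append, List.nil_append,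
        List.cons.injEq, lG, lA, Sigma.mk.injEq, heq_eq_eq, true_and, and_true] at hr
      obtain ⟨h1, h2, _, h4, _, h3⟩ := hr
      exfalso
      have h5 := two _ _ h2 h4
      omega
    · simp [lG, lA] at hr
    · simp only [List.rotate_cons_succ, List.rotate_zero, List.cons_append, List.nil_append,
        List.cons.injEq, lG, lA, Sigma.mk.injEq, heq_eq_eq, true_and, and_true] at hr
      obtain ⟨h1, h2, _, h4, _, h3⟩ := hr
      exfalso
      have h5 := two _ _ h2 h4
      omega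
    · simp [lG, lA] at hr
    · simp only [List.rotate_cons_succ, List.rotate_zero, List.cons_append, List.nil_append,
        List.cons.injEq, lG, lA, Sigma.mk.injEq, heq_eq_eq, true_and, and_true] at hr
      obtain ⟨h1, h2, _, h4, _, h3⟩ := hr
      exfalso
      have h5 := two _ _ h2 h4
      omega

theorem dec (κ : FP G A) : ∃ (c : A) (k : List (Lt G A)) (g : G), red k ∧ hd k ≠ some true ∧
    ls k ≠ some false ∧ κ = oA c * pr k * oG g := by
  obtain ⟨l, hl, rfl⟩ := exists_red κ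
  obtain ⟨l', g, hl1, hl2, hl3⟩ : ∃ (l' : List (Lt G A)) (g : G), red l' ∧
      ls l' ≠ some false ∧ pr l = pr l' * oG g := by
    by_cases h : ls l = some false
    · rcases List.eq_nil_or_concat' l with h1 | ⟨l', z, h1⟩
      · subst h1; simp at h
      · subst h1
        obtain ⟨b, z⟩ := z
        rw [ls_append_one] at h
        have hb : b = false := Option.some.inj h
        subst hb
        rw [red_append'] at hl
        refine ⟨l', z, hl.1, fun h2 => hl.2.2 _ h2 rfl, ?_⟩
        rw [pr_append, pr_one]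
        rfl
    · exact ⟨l, 1, hl, h, by rw [map_one, mul_one]⟩
  obtain ⟨k, c, hk1, hk2, hk3, hk4⟩ : ∃ (k : List (Lt G A)) (c : A), red k ∧
      ls k ≠ some false ∧ hd k ≠ some true ∧ pr l' = oA c * pr k := by
    by_cases h : hd l' = some true
    · cases l' with
      | nil => simp at h
      | cons z k =>
        obtain ⟨b, z⟩ := z
        rw [hd_cons] at h
        have hb : b = true := Option.some.inj h
        subst hb
        rw [show (⟨true, z⟩ : Lt G A) :: k = [⟨true, z⟩] ++ k from rfl, red_append'] at hl1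
        refine ⟨k, z, hl1.2.1, ?_, hl1.2.2 _ rfl, ?_⟩
        · intro h2
          apply hl2
          rw [show (⟨true, z⟩ : Lt G A) :: k = [⟨true, z⟩] ++ k from rfl, ls_append, h2]
          rintro rfl
          simp at h2
        · rw [pr_cons]; rfl
    · exact ⟨l', 1, hl1, hl2, h, by rw [map_one, one_mul]⟩
  exact ⟨c, k, g, hk1, hk3, hk2, by rw [hl3, hk4]⟩

/-- The main combinatorial statement. -/
theorem words_main {x : A} (hx : ∀ n : ℤ, x ^ n = 1 → n = 0) (κ : FP G A) :
    ∃ g₀ : G, ∀ (a : G) (_ : a ≠ 1) (n : ℕ) (z : FP G A),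
      z = κ * oG a * κ⁻¹ * oA x * (κ * (oG a)⁻¹ * κ⁻¹ * oA x ^ 2) *
        (κ * oG a * κ⁻¹ * oA x ^ (n + 4)) →
      z ≠ 1 ∧ ∀ (g : G) (_ : g ≠ 1) (n' : ℕ) (m : ℤ) (_ : m ≠ 0) (p : FP G A),
        z = p * ww x g n' ^ m * p⁻¹ → g₀ * a * g₀⁻¹ = g ∧ n = n' := by
  obtain ⟨c, k, g₀, hk, hk1, hk2, rfl⟩ := dec κ
  refine ⟨g₀, ?_⟩
  intro a ha n z hz
  have ha' : g₀ * a * g₀⁻¹ ≠ 1 := by
    intro h
    apply ha
    simpa using h
  have hx' : ∀ n : ℤ, (c⁻¹ * x * c) ^ n = 1 → n = 0 := by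
    intro n hn
    apply hx
    have e1 : c⁻¹ * x * c = c⁻¹ * x * (c⁻¹)⁻¹ := by rw [inv_inv]
    rw [e1, conj_zpow] at hn
    have h := congrArg (fun t => c * t * c⁻¹) hn
    simpa [mul_assoc] using h
  have hz' : z = oA c * pr (bl k (g₀ * a * g₀⁻¹) (c⁻¹ * x * c) n) * (oA c)⁻¹ := by
    have e1 : ∀ j : ℕ, oA (c⁻¹ * x * c) ^ j = (oA c)⁻¹ * (oA x : FP G A) ^ j * oA c := by
      intro j
      have e2 : c⁻¹ * x * c = c⁻¹ * x * (c⁻¹)⁻¹ := by rw [inv_inv]
      rw [← map_pow, e2, conj_pow, map_mul, map_mul, map_inv, map_inv, map_inv, map_pow, inv_inv]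
    rw [hz, pr_bl, e1, e1, map_mul, map_mul, map_inv, map_mul, map_mul, map_inv]
    group
  constructor
  · intro h1
    rw [h1] at hz'
    have h2 : pr (bl k (g₀ * a * g₀⁻¹) (c⁻¹ * x * c) n) = pr ([] : List (Lt G A)) := by
      have h3 : (1 : FP G A) = (oA c)⁻¹ * (oA c * pr (bl k (g₀ * a * g₀⁻¹) (c⁻¹ * x * c) n) *
          (oA c)⁻¹) * oA c := by rw [← hz']; group
      rw [pr_nil, h3]; group
    have h4 := red_unique (red_bl hk hk1 hk2 ha' hx' n) red_nil h2
    have h5 := ls_bl k (g₀ * a * g₀⁻¹) (c⁻¹ * x * c) n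
    rw [h4] at h5
    simp at h5
  · intro g hg n' m hm p e
    have e1 : pr (bl k (g₀ * a * g₀⁻¹) (c⁻¹ * x * c) n) =
        ((oA c)⁻¹ * p) * ww x g n' ^ m * ((oA c)⁻¹ * p)⁻¹ := by
      have h3 : pr (bl k (g₀ * a * g₀⁻¹) (c⁻¹ * x * c) n) = (oA c)⁻¹ * z * oA c := by
        rw [hz']; group
      rw [h3, e]; group
    exact (rot hx hk hk1 hk2 ha' hx' hg hm e1).2

theorem ww_pow_ne_one {x : A} (hx : ∀ n : ℤ, x ^ n = 1 → n = 0) {g : G} (hg : g ≠ 1) (n : ℕ)
    {m : ℤ} (hm : ww x g n ^ m = 1) : m = 0 := by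
  by_contra h
  apply no_conj_letter hx hg n h 1 false 1
  rw [hm, map_one]; simp

end

end Pool.Agent.V1119.EX
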