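import Mathlib
import Pool.Agent.V1119.EX.Aff
import Pool.Agent.V1119.EX.Fld
import Pool.Agent.V1119.EX.Sel
import Pool.Agent.V1119.EX.Words

set_option autoImplicit false
set_option linter.unusedSectionVars false

/-! Extendable endomorphisms are inner or trivial. -/

namespace Pool.Agent.V1119.EX

open Monoid Aff

universe u

section PP

variable {G V : Type*} [Group G] [MulAction G V] {T : SimpleGraph V}

theorem TreeAct.three (h : TreeAct G T) {a X : G} {p q : V} (hpq : p ≠ q) (ha : a • p = p)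
    (ha' : ∀ v, a • v = v → v = p) (hX : X • q = q)
    (hX' : ∀ n : ℕ, 0 < n → ∀ v : V, X ^ n • v = v → v = q) (n : ℕ) (v : V) :
    (a * X * (a⁻¹ * X ^ 2) * (a * X ^ (n + 4))) • v ≠ v := by
  obtain ⟨p1, q1, N, hN, hp1, hq1, H1, H2⟩ := h.geod_data hpq
  have hXn : ∀ n : ℕ, X ^ n • q = q := by
    intro n
    induction n with
    | zero => simp
    | succ n ih => rw [pow_succ, mul_smul, hX, ih]
  have hXn1 : ∀ n : ℕ, 0 < n → X ^ n • q1 ≠ q1 := by
    intro n hn e
    exact hq1.ne (hX' n hn _ e).symm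
  have ha1 : a • p1 ≠ p1 := fun e => hp1.ne (ha' _ e).symm
  have hai : a⁻¹ • p = p := by rw [inv_smul_eq_iff, ha]
  have hai1 : a⁻¹ • p1 ≠ p1 := by
    intro e
    rw [inv_smul_eq_iff] at e
    exact ha1 e.symm
  have hno := h.no_fixed_of_grow (g := (X ^ (n + 4) * a) * ((X ^ 1 * a⁻¹) * (X ^ 2 * a))) hp1 (by
    intro z hz
    obtain ⟨e1, e2⟩ := h.pingpong hp1 hq1 H1 H2 ha ha1 (hXn (n + 4)) (hXn1 _ (by omega)) z hz
    obtain ⟨e3, e4⟩ := h.pingpong hp1 hq1 H1 H2 hai hai1 (hXn 1) (hXn1 _ (by omega)) _ e1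
    obtain ⟨e5, e6⟩ := h.pingpong hp1 hq1 H1 H2 ha ha1 (hXn 2) (hXn1 _ (by omega)) _ e3
    have e : ((X ^ (n + 4) * a) * ((X ^ 1 * a⁻¹) * (X ^ 2 * a)))⁻¹ • z =
        (X ^ 2 * a)⁻¹ • (X ^ 1 * a⁻¹)⁻¹ • (X ^ (n + 4) * a)⁻¹ • z := by
      rw [← mul_smul, ← mul_smul]
      congr 1
      group
    rw [e]
    exact ⟨e5, by omega⟩) (X ^ (n + 4) • v)
  intro hv
  apply hno
  rw [← mul_smul]
  conv_rhs => rw [← hv]
  rw [← mul_smul]
  congr 1
  rw [pow_one]
  group

end PP

section Pull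

variable {P H B : Type*} [Group P] [Group H] [Group B]

theorem pull (i : P →* H) (hi : Function.Injective i) (θ : B →* H) (h : H)
    (hθ : ∀ y, ∃ p, θ y = h * i p * h⁻¹) : ∃ θ' : B →* P, ∀ y, θ y = h * i (θ' y) * h⁻¹ := by
  choose f hf using hθ
  refine ⟨MonoidHom.mk' f ?_, hf⟩
  intro a b
  apply hi
  have h1 : h * i (f (a * b)) * h⁻¹ = h * i (f a * f b) * h⁻¹ := by
    rw [← hf, map_mul θ, hf a, hf b, map_mul i]
    group
  exact mul_left_cancel (mul_right_cancel h1)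

end Pull

section FPfix

variable {G A : Type u} [Group G] [Group A]

theorem oG_inj : Function.Injective (oG : G →* FP G A) :=
  CoprodI.of_injective (M := XX G A) false

theorem oA_inj : Function.Injective (oA : A →* FP G A) :=
  CoprodI.of_injective (M := XX G A) true

theorem aff_fix_FP {K : Type u} [Field K] [CharZero K] (X : K)
    (hX : ∀ m n : ℤ, (m : K) = n * X → m = 0 ∧ n = 0)
    (θ : Aff K →* FP G A) (h1 : θ (tau 1) ≠ 1) :
    (∃ p, ∀ y, ∃ g, θ y = p * oG g * p⁻¹) ∨ (∃ p, ∀ y, ∃ a, θ y = p * oA a * p⁻¹) := by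
  let φ : ∀ _ : PUnit.{u + 1}, Unit →* G := fun _ => 1
  let ψ : ∀ _ : PUnit.{u + 1}, Unit →* A := fun _ => 1
  have hφ : ∀ j, Function.Injective (φ j) := fun _ a b _ => rfl
  have hψ : ∀ j, Function.Injective (ψ j) := fun _ a b _ => rfl
  let s : FP G A →* SG φ ψ := CoprodI.lift (M := XX G A) (fun b => match b with
    | false => (iP φ ψ : XX G A false →* _)
    | true => (iA φ ψ PUnit.unit : XX G A true →* _))
  let e : SG φ ψ →* FP G A := slift (oG : G →* FP G A) (fun _ => (oA : A →* FP G A)) (by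
    intro j e
    change oG 1 = oA 1
    rw [map_one, map_one])
  have hes : ∀ z, e (s z) = z := by
    have h2 : e.comp s = MonoidHom.id _ := by
      apply CoprodI.ext_hom
      intro b
      cases b with
      | false =>
        ext g
        change e (s (CoprodI.of (M := XX G A) (i := false) g)) = _
        have h3 : s (CoprodI.of (M := XX G A) (i := false) g) = iP φ ψ g := by
          exact CoprodI.lift_of _ _
        rw [h3]
        exact slift_p _ _ _ _
      | true =>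
        ext g
        change e (s (CoprodI.of (M := XX G A) (i := true) g)) = _
        have h3 : s (CoprodI.of (M := XX G A) (i := true) g) = iA φ ψ PUnit.unit g := by
          exact CoprodI.lift_of _ _
        rw [h3]
        exact slift_a _ _ _ _ _
    intro z
    exact DFunLike.congr_fun h2 z
  obtain ⟨v, hv⟩ := aff_fix hφ hψ (by
    intro j a b
    refine ⟨1, 0, by simp, ?_⟩
    exact Subsingleton.elim _ _) X hX (s.comp θ) (by
    intro h
    apply h1
    have := hes (θ (tau 1))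
    rw [← this]
    have h' : s (θ (tau 1)) = 1 := h
    rw [h', map_one])
  rcases exists_v v with ⟨g, rfl⟩ | ⟨j, g, rfl⟩
  · left
    refine ⟨e g, fun y => ?_⟩
    obtain ⟨p, hp⟩ := fix_c.1 (hv y)
    refine ⟨p, ?_⟩
    have h2 : s (θ y) = g * iP φ ψ p * g⁻¹ := hp
    rw [← hes (θ y), h2, map_mul, map_mul, map_inv]
    congr 2
  · right
    refine ⟨e g, fun y => ?_⟩
    obtain ⟨p, hp⟩ := fix_l.1 (hv y)
    refine ⟨p, ?_⟩
    have h2 : s (θ y) = g * iA φ ψ j p * g⁻¹ := hp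
    rw [← hes (θ y), h2, map_mul, map_mul, map_inv]
    congr 2

end FPfix

/-- The large field with a square root of `-1`. -/
abbrev K1 (G : Type u) : Type u := Rat' (Set G) ℂ
/-- Its affine group. -/
abbrev A1 (G : Type u) : Type u := Aff (K1 G)
/-- The larger field without a square root of `-1`. -/
abbrev K0 (G : Type u) : Type u := Rat' (Set (A1 G)) ℝ
/-- Its affine group. -/
abbrev A0 (G : Type u) : Type u := Aff (K0 G)

noncomputable instance (G : Type u) : CharZero (K1 G) := rat_charZero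
noncomputable instance (G : Type u) : CharZero (K0 G) := rat_charZero

section Final

variable {G : Type u} [Group G]

/-- The unit translation. -/
noncomputable def x0 (G : Type u) : A0 G := tau 1

theorem tau_order {K : Type u} [Field K] [CharZero K] (n : ℤ) (h : (tau (1 : K)) ^ n = 1) :
    n = 0 := by
  rw [tau_zpow, mul_one, ← tau_zero] at h
  exact_mod_cast tau_inj h

theorem x0_order (n : ℤ) (h : x0 G ^ n = 1) : n = 0 := tau_order n h

/-- The edge maps. -/
noncomputable def phi (R : Set (G × ℕ)) (j : R) : Multiplicative ℤ →* FP G (A0 G) :=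
  zpowersHom _ (ww (x0 G) j.1.1 j.1.2)

/-- The edge maps. -/
noncomputable def psi (R : Set (G × ℕ)) (_ : R) : Multiplicative ℤ →* A1 G :=
  zpowersHom _ (tau 1)

theorem phi_apply (R : Set (G × ℕ)) (j : R) (e : Multiplicative ℤ) :
    phi R j e = ww (x0 G) j.1.1 j.1.2 ^ (Multiplicative.toAdd e) := zpowersHom_apply _ _ _

theorem psi_apply (R : Set (G × ℕ)) (j : R) (e : Multiplicative ℤ) :
    psi R j e = tau 1 ^ (Multiplicative.toAdd e) := zpowersHom_apply _ _ _

variable {R : Set (G × ℕ)} (hR : ∀ x ∈ R, x.1 ≠ 1)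

include hR in
theorem phi_inj (j : R) : Function.Injective (phi R j) := by
  rw [injective_iff_map_eq_one]
  intro e he
  rw [phi_apply] at he
  exact ww_pow_ne_one x0_order (hR _ j.2) _ he

theorem psi_inj (j : R) : Function.Injective (psi R j) := by
  rw [injective_iff_map_eq_one]
  intro e he
  rw [psi_apply] at he
  exact tau_order _ he

/-- The group. -/
abbrev HH (R : Set (G × ℕ)) : Type u := SG (phi R) (psi R)

theorem ww_rel (j : R) : iP (phi R) (psi R) (ww (x0 G) j.1.1 j.1.2) =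
    iA (phi R) (psi R) j (tau 1) := by
  have := i_rel (phi R) (psi R) j (Multiplicative.ofAdd 1)
  rw [phi_apply, psi_apply] at this
  simpa using this

theorem CEint (a b : Multiplicative ℤ) : ∃ m n : ℤ, ¬ (m = 0 ∧ n = 0) ∧ a ^ m = b ^ n := by
  by_cases h : Multiplicative.toAdd a = 0
  · refine ⟨1, 0, by simp, ?_⟩
    have : a = 1 := h
    rw [this]; simp
  · refine ⟨Multiplicative.toAdd b, Multiplicative.toAdd a, fun hc => h hc.2, ?_⟩
    apply Multiplicative.toAdd.injective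
    rw [toAdd_zpow, toAdd_zpow, smul_eq_mul, smul_eq_mul, mul_comm]

include hR in
theorem F1 {b : Bool} {y : XX G (A0 G) b} (hy : y ≠ 1) {v : VV (phi R) (psi R)}
    (hv : iP (phi R) (psi R) (CoprodI.of y) • v = v) : v = cv 1 := by
  by_contra hne
  obtain ⟨j, e, p, hp⟩ := iP_fix (phi_inj hR) psi_inj hne hv
  rw [phi_apply] at hp
  by_cases hm : Multiplicative.toAdd e = 0
  · rw [hm, zpow_zero, mul_one, mul_inv_cancel] at hp
    apply hy
    apply CoprodI.of_injective (M := XX G (A0 G)) b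
    rw [hp, map_one]
  · exact no_conj_letter x0_order (hR _ j.2) _ hm p b y hp

theorem no_inj_K1 (f : K1 G → G) : ¬ Function.Injective f := no_inj_rat G ℂ f

theorem no_inj_K0 (f : K0 G → A1 G) : ¬ Function.Injective f := no_inj_rat (A1 G) ℝ f

theorem no_inj_K0' (f : K0 G → G) : ¬ Function.Injective f := by
  intro h
  apply no_inj_K0 (fun k => (tau (va ({f k} : Set G) : K1 G) : A1 G))
  intro a b hab
  have h1 : (va ({f a} : Set G) : K1 G) = va ({f b} : Set G) := tau_inj hab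
  have h2 : ({f a} : Set G) = {f b} := va_inj h1
  exact h (Set.singleton_injective h2)

include hR in
theorem F4 (θ : A1 G →* HH R) (h1 : θ (tau 1) ≠ 1) :
    ∃ j h, θ (tau 1) • (lv j h : VV (phi R) (psi R)) = lv j h := by
  obtain ⟨v, hv⟩ := aff_fix (phi_inj hR) psi_inj (fun _ => CEint) (va (∅ : Set G) : K1 G)
    (fun m n h => va_indep _ m n h) θ h1
  rcases exists_v v with ⟨g, rfl⟩ | ⟨j, g, rfl⟩
  · exfalso
    obtain ⟨θ', hθ'⟩ := pull (iP (phi R) (psi R)) (iP_inj (phi_inj hR) psi_inj) θ g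
      (fun y => fix_c.1 (hv y))
    have h2 : θ' (tau 1) ≠ 1 := by
      intro h; apply h1; rw [hθ', h]; simp
    rcases aff_fix_FP (va (∅ : Set G) : K1 G) (fun m n h => va_indep _ m n h) θ' h2 with
      ⟨p, hp⟩ | ⟨p, hp⟩
    · obtain ⟨θ'', hθ''⟩ := pull oG oG_inj θ' p hp
      have h3 : θ'' (tau 1) ≠ 1 := by
        intro h; apply h2; rw [hθ'', h]; simp
      exact no_inj_K1 _ (hom_inj θ'' h3)
    · obtain ⟨θ'', hθ''⟩ := pull oA oA_inj θ' p hp
      have h3 : θ'' (tau 1) ≠ 1 := by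
        intro h; apply h2; rw [hθ'', h]; simp
      obtain ⟨i, hi⟩ := exists_i (S := Set G)
      exact h3 (sqrt_obstruction i hi no_sqrt θ'')
  · exact ⟨j, g, hv _⟩

include hR in
theorem step2 (θ : A0 G →* HH R) (h1 : θ (tau 1) ≠ 1) :
    ∃ h, θ (tau 1) = h * iP (phi R) (psi R) (oA (x0 G)) * h⁻¹ := by
  obtain ⟨v, hv⟩ := aff_fix (phi_inj hR) psi_inj (fun _ => CEint) (va (∅ : Set (A1 G)) : K0 G)
    (fun m n h => va_indep _ m n h) θ h1
  rcases exists_v v with ⟨g, rfl⟩ | ⟨j, g, rfl⟩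
  · obtain ⟨θ', hθ'⟩ := pull (iP (phi R) (psi R)) (iP_inj (phi_inj hR) psi_inj) θ g
      (fun y => fix_c.1 (hv y))
    have h2 : θ' (tau 1) ≠ 1 := by
      intro h; apply h1; rw [hθ', h]; simp
    rcases aff_fix_FP (va (∅ : Set (A1 G)) : K0 G) (fun m n h => va_indep _ m n h) θ' h2 with
      ⟨p, hp⟩ | ⟨p, hp⟩
    · exfalso
      obtain ⟨θ'', hθ''⟩ := pull oG oG_inj θ' p hp
      have h3 : θ'' (tau 1) ≠ 1 := by
        intro h; apply h2; rw [hθ'', h]; simp
      exact no_inj_K0' _ (hom_inj θ'' h3)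
    · obtain ⟨θ'', hθ''⟩ := pull oA oA_inj θ' p hp
      have h3 : θ'' (tau 1) ≠ 1 := by
        intro h; apply h2; rw [hθ'', h]; simp
      obtain ⟨y, hy⟩ := map_conj θ'' h3
      refine ⟨g * iP (phi R) (psi R) (p * oA y), ?_⟩
      rw [hθ', hθ'', hy]
      simp only [map_mul, map_inv, x0]
      group
  · exfalso
    obtain ⟨θ', hθ'⟩ := pull (iA (phi R) (psi R) j) (iA_inj (phi_inj hR) psi_inj j) θ g
      (fun y => fix_l.1 (hv y))
    have h2 : θ' (tau 1) ≠ 1 := by
      intro h; apply h1; rw [hθ', h]; simp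
    exact no_inj_K0 _ (hom_inj θ' h2)

/-- Extendable endomorphisms. -/
def Ext (α : G →* G) : Prop :=
  ∀ (H : Type u) [Group H] (f : G →* H), ∃ β : H →* H, β.comp f = f.comp α

theorem ext_main (α : G →* G) (hα : Ext α) : α = 1 ∨ ∃ c : G, ∀ g, α g = c * g * c⁻¹ := by
  by_contra hcon
  push Not at hcon
  obtain ⟨hα1, hα2⟩ := hcon
  obtain ⟨R, hR, ⟨x, hxR, hx⟩, hR3⟩ := sel_main α hα1 hα2
  set ip := iP (phi R) (psi R) with hip
  obtain ⟨β, hβ⟩ := hα (HH R) (ip.comp oG)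
  have hβG : ∀ g, β (ip (oG g)) = ip (oG (α g)) := fun g => DFunLike.congr_fun hβ g
  have hipi : Function.Injective ip := iP_inj (phi_inj hR) psi_inj
  have F1G : ∀ g : G, g ≠ 1 → ∀ v : VV (phi R) (psi R), ip (oG g) • v = v → v = cv 1 :=
    fun g hg v hv => F1 hR (b := false) (y := g) hg hv
  have F1A : ∀ a : A0 G, a ≠ 1 → ∀ v : VV (phi R) (psi R), ip (oA a) • v = v → v = cv 1 :=
    fun g hg v hv => F1 hR (b := true) (y := g) hg hv
  -- Step 1
  have s1 : β (ip (oA (x0 G))) ≠ 1 := by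
    intro h
    have h2 : (β.comp (iA (phi R) (psi R) ⟨x, hxR⟩)) (tau 1) = ip (oG (α x.1)) := by
      rw [MonoidHom.comp_apply, ← ww_rel, ww_eq]
      simp only [map_mul, map_inv, map_pow, ← hip, hβG, h, one_pow, mul_one]
      group
    have h3 : ip (oG (α x.1)) ≠ 1 := by
      intro h4
      apply hx
      apply oG_inj (A := A0 G)
      apply hipi
      rw [h4, map_one, map_one]
    obtain ⟨j, k, h5⟩ := F4 hR _ (by rw [h2]; exact h3)
    rw [h2] at h5
    exact cv_ne_lv (F1G _ hx _ h5).symm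
  obtain ⟨h₁, hh₁⟩ := step2 hR (β.comp (ip.comp oA)) s1
  let β' : HH R →* HH R := (MulAut.conj h₁⁻¹).toMonoidHom.comp β
  have hβ' : ∀ z, β' z = h₁⁻¹ * β z * h₁ := by
    intro z
    change h₁⁻¹ * β z * (h₁⁻¹)⁻¹ = _
    rw [inv_inv]
  have hβ'x : β' (ip (oA (x0 G))) = ip (oA (x0 G)) := by
    have : β (ip (oA (x0 G))) = h₁ * ip (oA (x0 G)) * h₁⁻¹ := hh₁
    rw [hβ', this]; group
  have hβ'G : ∀ g, β' (ip (oG g)) = h₁⁻¹ * ip (oG (α g)) * h₁ := by
    intro g; rw [hβ', hβG]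
  have hθ : ∀ j : R, (β'.comp (iA (phi R) (psi R) j)) (tau 1) =
      (h₁⁻¹ * ip (oG (α j.1.1)) * h₁) * ip (oA (x0 G)) *
      ((h₁⁻¹ * ip (oG (α j.1.1)) * h₁)⁻¹ * ip (oA (x0 G)) ^ 2) *
      ((h₁⁻¹ * ip (oG (α j.1.1)) * h₁) * ip (oA (x0 G)) ^ (j.1.2 + 4)) := by
    intro j
    rw [MonoidHom.comp_apply, ← ww_rel, ww_eq]
    simp only [map_mul, map_inv, map_pow, ← hip, hβ'G, hβ'x]
  -- Step 3
  have s3 : h₁ ∈ ip.range := by
    by_contra hnot
    have hne : (cv h₁⁻¹ : VV (phi R) (psi R)) ≠ cv 1 := by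
      intro h
      obtain ⟨p, hp⟩ := cv_eq.1 h
      apply hnot
      exact ⟨p, (inv_mul_eq_one.1 hp.symm).symm⟩
    have hno := (treeAct (phi_inj hR) psi_inj).three hne
      (a := h₁⁻¹ * ip (oG (α x.1)) * h₁) (X := ip (oA (x0 G))) (by
        refine fix_c.2 ⟨oG (α x.1), by rw [inv_inv]⟩) (by
        intro v hv
        rw [mul_smul, mul_smul] at hv
        have h2 : ip (oG (α x.1)) • h₁ • v = h₁ • v := by
          have h3 : h₁ • h₁⁻¹ • ip (oG (α x.1)) • h₁ • v = h₁ • v := by rw [hv]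
          rwa [smul_inv_smul] at h3
        have h4 := F1G _ hx _ h2
        have h5 : v = h₁⁻¹ • h₁ • v := by rw [inv_smul_smul]
        rw [h5, h4, smul_cv, mul_one]) (by
        exact fix_c.2 ⟨oA (x0 G), by rw [← hip]; group⟩) (by
        intro n hn v hv
        rw [← map_pow, ← map_pow] at hv
        refine F1A _ ?_ v hv
        intro h
        have := x0_order (G := G) (n : ℤ) (by rw [zpow_natCast, h])
        omega) x.2
    have hell : ∃ v : VV (phi R) (psi R),
        (β'.comp (iA (phi R) (psi R) ⟨x, hxR⟩)) (tau 1) • v = v := by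
      apply (treeAct (phi_inj hR) psi_inj).elliptic_of_divisible
      intro n hn
      refine ⟨(β'.comp (iA (phi R) (psi R) ⟨x, hxR⟩)) (tau (1 / n)), ?_⟩
      rw [← map_pow, tau_pow]
      congr 2
      have : (n : K1 G) ≠ 0 := by exact_mod_cast (by omega : n ≠ 0)
      field_simp
    obtain ⟨v, hv⟩ := hell
    rw [hθ] at hv
    exact hno v hv
  obtain ⟨κ', hκ'⟩ := s3
  obtain ⟨κ, rfl⟩ : ∃ κ, κ' = κ⁻¹ := ⟨κ'⁻¹, by rw [inv_inv]⟩
  have hh : h₁ = (ip κ)⁻¹ := by rw [← hκ', map_inv]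
  have hθ2 : ∀ j : R, (β'.comp (iA (phi R) (psi R) j)) (tau 1) =
      ip (κ * oG (α j.1.1) * κ⁻¹ * oA (x0 G) * (κ * (oG (α j.1.1))⁻¹ * κ⁻¹ * oA (x0 G) ^ 2) *
        (κ * oG (α j.1.1) * κ⁻¹ * oA (x0 G) ^ (j.1.2 + 4))) := by
    intro j
    rw [hθ, hh]
    simp only [map_mul, map_inv, map_pow, inv_inv, mul_inv_rev, mul_assoc]
  -- Step 4
  obtain ⟨g₀, hg₀⟩ := words_main (G := G) x0_order κ
  obtain ⟨y, hyR, hy⟩ := hR3 g₀
  by_cases hαy : α y.1 = 1
  · have e1 : (β'.comp (iA (phi R) (psi R) ⟨y, hyR⟩)) (tau 1) = ip (oA (x0 G ^ (y.2 + 7))) := by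
      have e0 : x0 G ^ (y.2 + 7) = x0 G * x0 G ^ 2 * x0 G ^ (y.2 + 4) := by
        rw [← pow_succ', ← pow_add]
        congr 1
        omega
      rw [hθ2, hαy, e0]
      congr 1
      simp only [map_one, mul_one, inv_one, mul_inv_cancel, one_mul, map_pow, map_mul]
    have e2 : x0 G ^ (y.2 + 7) ≠ 1 := by
      intro h
      have := x0_order (G := G) ((y.2 + 7 : ℕ) : ℤ) (by rw [zpow_natCast, h])
      omega
    obtain ⟨j, k, h5⟩ := F4 hR (β'.comp (iA (phi R) (psi R) ⟨y, hyR⟩)) (by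
      rw [e1]
      intro h
      apply e2
      apply oA_inj (G := G)
      apply hipi
      rw [h, map_one, map_one])
    rw [e1] at h5
    exact cv_ne_lv (F1A _ e2 _ h5).symm
  · obtain ⟨hz1, hz2⟩ := hg₀ (α y.1) hαy y.2 _ rfl
    obtain ⟨j, k, h5⟩ := F4 hR (β'.comp (iA (phi R) (psi R) ⟨y, hyR⟩)) (by
      rw [hθ2]
      intro h
      apply hz1
      apply hipi
      rw [map_one]
      exact h)
    rw [hθ2] at h5
    obtain ⟨j', e, p, hp⟩ := iP_fix (phi_inj hR) psi_inj (fun h => cv_ne_lv h.symm) h5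
    rw [phi_apply] at hp
    have hm : Multiplicative.toAdd e ≠ 0 := by
      intro hm
      apply hz1
      rw [hm, zpow_zero, mul_one, mul_inv_cancel] at hp
      exact hp
    obtain ⟨h6, h7⟩ := hz2 _ (hR _ j'.2) _ _ hm p hp
    apply hy
    refine ⟨hαy, ?_⟩
    rw [h6]
    have : ((j'.1.1, y.2) : G × ℕ) = j'.1 := Prod.ext rfl h7
    rw [this]
    exact j'.2

end Final

end Pool.Agent.V1119.EX
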